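import Mathlib

namespace Pool.Agent.R729.KP

open Finset

section core

variable {l b N : ℕ} {F G : Type} [DecidableEq F]

/-- the vector of digits of `x` at the position `td` for coordinates before `i`, `tu` otherwise -/
def dl (ev : F → Fin b → G) (i : Fin l) (tu td : F) (x : Fin l → Fin b) : Fin l → G :=
  fun j => if j < i then ev td (x j) else ev tu (x j)

/-- index type of the family of members -/
abbrev Idx (l b N : ℕ) (F : Type) : Type := (Fin l × Fin b) ⊕ (Fin l × Fin b × F × F × Fin N)

/-- the letter of `x` in the member `I` -/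
def Lt (ev : F → Fin b → G) (up dn : Fin b → Fin b → F) (code : (Fin l → G) → Fin N) :
    Idx l b N F → (Fin l → Fin b) → ℕ
  | Sum.inl (i, a) => fun x => if x i < a then 1 else if x i = a then 2 else 3
  | Sum.inr (i, a, tu, td, w) => fun x =>
      if x i = a then
        (if code (dl ev i tu td x) = w then 1 else if w < code (dl ev i tu td x) then 2 else 0)
      else (if up a (x i) = tu ∧ dn a (x i) = td then 3 else 0)

/-- the coordinate of a member -/
def crd : Idx l b N F → Fin l
  | Sum.inl (i, _) => i
  | Sum.inr (i, _, _, _, _) => i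

/-- covering by a letter function -/
def Cov {V : Type} [DecidableEq V] (L : V → ℕ) (e : Finset V) : Prop :=
  ∃ u v w, L u = 1 ∧ L v = 2 ∧ L w = 3 ∧ e = {u, v, w}

variable {ev : F → Fin b → G} {up dn : Fin b → Fin b → F} {code : (Fin l → G) → Fin N}

lemma inl_one {i : Fin l} {a : Fin b} {x : Fin l → Fin b} :
    Lt ev up dn code (Sum.inl (i, a)) x = 1 ↔ x i < a := by
  simp only [Lt]; split_ifs <;> simp_all
lemma inl_two {i : Fin l} {a : Fin b} {x : Fin l → Fin b} :
    Lt ev up dn code (Sum.inl (i, a)) x = 2 ↔ x i = a := by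
  simp only [Lt]; split_ifs with h1 h2 <;> simp_all
  exact ne_of_lt h1
lemma inl_three {i : Fin l} {a : Fin b} {x : Fin l → Fin b} :
    Lt ev up dn code (Sum.inl (i, a)) x = 3 ↔ a < x i := by
  simp only [Lt]; split_ifs with h1 h2 <;> simp_all
  · exact le_of_lt h1
  · exact lt_of_le_of_ne h1 (Ne.symm h2)

lemma inr_one {i : Fin l} {a : Fin b} {tu td : F} {w : Fin N} {x : Fin l → Fin b} :
    Lt ev up dn code (Sum.inr (i, a, tu, td, w)) x = 1 ↔
      x i = a ∧ code (dl ev i tu td x) = w := by
  simp only [Lt]; split_ifs <;> simp_all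
lemma inr_two {i : Fin l} {a : Fin b} {tu td : F} {w : Fin N} {x : Fin l → Fin b} :
    Lt ev up dn code (Sum.inr (i, a, tu, td, w)) x = 2 ↔
      x i = a ∧ w < code (dl ev i tu td x) := by
  simp only [Lt]; split_ifs <;> simp_all
lemma inr_three {i : Fin l} {a : Fin b} {tu td : F} {w : Fin N} {x : Fin l → Fin b} :
    Lt ev up dn code (Sum.inr (i, a, tu, td, w)) x = 3 ↔
      x i ≠ a ∧ up a (x i) = tu ∧ dn a (x i) = td := by
  simp only [Lt]; split_ifs <;> simp_all

/-- at most one member of each coordinate covers a given triple -/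
lemma cov_inj {e : Finset (Fin l → Fin b)} {I J : Idx l b N F}
    (hI : Cov (Lt ev up dn code I) e) (hJ : Cov (Lt ev up dn code J) e)
    (hc : crd I = crd J) : I = J := by
  obtain ⟨u, v, w, hu, hv, hw, he⟩ := hI
  obtain ⟨u', v', w', hu', hv', hw', he'⟩ := hJ
  have hmem : ∀ t, t ∈ ({u', v', w'} : Finset (Fin l → Fin b)) →
      t = u ∨ t = v ∨ t = w := by
    intro t ht
    rw [← he', he] at ht
    simpa using ht
  have mu' := hmem u' (by simp)
  have mv' := hmem v' (by simp)
  have mw' := hmem w' (by simp)
  rcases I with ⟨i, a⟩ | ⟨i, a, tu, td, r⟩ <;> rcases J with ⟨i', a'⟩ | ⟨i', a', tu', td', r'⟩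
  · simp only [crd] at hc
    subst hc
    rw [inl_one] at hu hu'
    rw [inl_two] at hv hv'
    rw [inl_three] at hw hw'
    have key : a = a' := by
      rcases mv' with h | h | h
      · subst h
        rcases mu' with h | h | h <;> subst h <;> omega
      · subst h; omega
      · subst h
        rcases mw' with h | h | h <;> subst h <;> omega
    rw [key]
  · exfalso
    simp only [crd] at hc
    subst hc
    rw [inl_one] at hu
    rw [inl_two] at hv
    rw [inl_three] at hw
    rw [inr_one] at hu'
    rw [inr_two] at hv'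
    rw [inr_three] at hw'
    obtain ⟨hu1, hu2⟩ := hu'
    obtain ⟨hv1, hv2⟩ := hv'
    have huv : u' ≠ v' := by
      rintro rfl
      omega
    rcases mu' with h | h | h <;> rcases mv' with h' | h' | h' <;> subst h <;> subst h' <;>
      first | exact huv rfl | omega
  · exfalso
    simp only [crd] at hc
    subst hc
    rw [inl_one] at hu'
    rw [inl_two] at hv'
    rw [inl_three] at hw'
    rw [inr_one] at hu
    rw [inr_two] at hv
    rw [inr_three] at hw
    obtain ⟨hu1, hu2⟩ := hu
    obtain ⟨hv1, hv2⟩ := hv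
    have h1 : u' ≠ v' := by rintro rfl; omega
    have h2 : v' ≠ w' := by rintro rfl; omega
    have h3 : u' ≠ w' := by rintro rfl; omega
    rcases mu' with h | h | h <;> rcases mv' with h' | h' | h' <;> subst h <;> subst h' <;>
      first | exact h1 rfl | omega | skip
    all_goals
      rcases mw' with h'' | h'' | h'' <;> subst h'' <;>
      first | exact h2 rfl | exact h3 rfl | omega
  · simp only [crd] at hc
    subst hc
    rw [inr_one] at hu hu'
    rw [inr_two] at hv hv'
    rw [inr_three] at hw hw'
    obtain ⟨hu1, hu2⟩ := hu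
    obtain ⟨hv1, hv2⟩ := hv
    obtain ⟨hw1, hw2, hw3⟩ := hw
    obtain ⟨hu1', hu2'⟩ := hu'
    obtain ⟨hv1', hv2'⟩ := hv'
    obtain ⟨hw1', hw2', hw3'⟩ := hw'
    have huv : u ≠ v := by rintro rfl; omega
    have huv' : u' ≠ v' := by rintro rfl; omega
    -- the outside point is the same
    have hww : w' = w := by
      rcases mw' with h | h | h
      · exfalso
        subst h
        rcases mu' with h | h | h
        · subst h; exact hw1' hu1'
        · subst h; apply hw1'; rw [← hu1', hu1, hv1]
        · rcases mv' with h' | h' | h'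
          · subst h'; exact hw1' hv1'
          · subst h'; apply hw1'; rw [← hv1', hu1, hv1]
          · exact huv' (h.trans h'.symm)
      · exfalso
        subst h
        rcases mu' with h | h | h
        · subst h; apply hw1'; rw [← hu1', hu1, hv1]
        · subst h; exact hw1' hu1'
        · rcases mv' with h' | h' | h'
          · subst h'; apply hw1'; rw [← hv1', hu1, hv1]
          · subst h'; exact hw1' hv1'
          · exact huv' (h.trans h'.symm)
      · exact h
    subst hww
    have haa : a = a' := by
      rcases mu' with h | h | h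
      · subst h; rw [← hu1, ← hu1']
      · subst h; rw [← hv1, ← hu1']
      · subst h; exact absurd hu1' hw1'
    subst haa
    subst hw2 hw3
    have ht1 : tu' = up a (w' i) := hw2'.symm
    have ht2 : td' = dn a (w' i) := hw3'.symm
    subst ht1 ht2
    have hr : r = r' := by
      rcases mu' with h | h | h
      · subst h; rw [← hu2, ← hu2']
      · exfalso
        subst h
        rcases mv' with h' | h' | h'
        · subst h'
          rw [← hu2'] at hv2'
          rw [← hu2] at hv2
          exact absurd hv2 (not_lt_of_gt hv2')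
        · exact huv' h'.symm
        · subst h'; exact absurd hv1' hw1'
      · subst h; exact absurd hu1' hw1'
    rw [hr]

lemma base_cov {u v w : Fin l → Fin b} {i : Fin l} (h1 : u i < v i) (h2 : v i < w i) :
    ∃ I : Idx l b N F, Cov (Lt ev up dn code I) {u, v, w} :=
  ⟨Sum.inl (i, v i), u, v, w, inl_one.2 h1, inl_two.2 rfl, inl_three.2 h2, rfl⟩

lemma star_cov (hcode : Function.Injective code) {P Q R : Fin l → Fin b} {i : Fin l}
    (h1 : P i = Q i) (h2 : R i ≠ P i)
    (h3 : dl ev i (up (P i) (R i)) (dn (P i) (R i)) P ≠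
      dl ev i (up (P i) (R i)) (dn (P i) (R i)) Q) :
    ∃ I : Idx l b N F, Cov (Lt ev up dn code I) {P, Q, R} := by
  have h4 : code (dl ev i (up (P i) (R i)) (dn (P i) (R i)) P) ≠
      code (dl ev i (up (P i) (R i)) (dn (P i) (R i)) Q) := fun h => h3 (hcode h)
  rcases lt_or_gt_of_ne h4 with h | h
  · exact ⟨Sum.inr (i, P i, up (P i) (R i), dn (P i) (R i),
      code (dl ev i (up (P i) (R i)) (dn (P i) (R i)) P)), P, Q, R,
      inr_one.2 ⟨rfl, rfl⟩, inr_two.2 ⟨h1.symm, h⟩, inr_three.2 ⟨h2, rfl, rfl⟩, rfl⟩
  · exact ⟨Sum.inr (i, P i, up (P i) (R i), dn (P i) (R i),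
      code (dl ev i (up (P i) (R i)) (dn (P i) (R i)) Q)), Q, P, R,
      inr_one.2 ⟨h1.symm, rfl⟩, inr_two.2 ⟨rfl, h⟩, inr_three.2 ⟨h2, rfl, rfl⟩, by
        rw [Finset.insert_comm]⟩

lemma pair_cov (hcode : Function.Injective code)
    (hg : ∀ a a' c c', a ≠ a' → c ≠ c' →
      ev (up a a') c ≠ ev (up a a') c' ∨ ev (dn c c') a ≠ ev (dn c c') a')
    {P Q R : Fin l → Fin b} {i j : Fin l} (hij : i < j)
    (h1 : P i = Q i) (h2 : R i ≠ P i) (h3 : P j = R j) (h4 : Q j ≠ P j) :
    ∃ I : Idx l b N F, Cov (Lt ev up dn code I) {P, Q, R} := by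
  rcases hg (P i) (R i) (P j) (Q j) h2.symm h4.symm with h | h
  · refine star_cov hcode h1 h2 ?_
    intro he
    have := congrFun he j
    simp only [dl, not_lt_of_gt hij, if_false] at this
    exact h this
  · have : ∃ I : Idx l b N F, Cov (Lt ev up dn code I) {P, R, Q} := by
      refine star_cov hcode h3 h4 ?_
      intro he
      have := congrFun he i
      simp only [dl, hij, if_true] at this
      exact h this
    rwa [show ({P, R, Q} : Finset (Fin l → Fin b)) = {P, Q, R} by
      rw [Finset.pair_comm]] at this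

lemma pair_cov' (hcode : Function.Injective code)
    (hg : ∀ a a' c c', a ≠ a' → c ≠ c' →
      ev (up a a') c ≠ ev (up a a') c' ∨ ev (dn c c') a ≠ ev (dn c c') a')
    {P Q R : Fin l → Fin b} {i j : Fin l}
    (h1 : P i = Q i) (h2 : R i ≠ P i) (h3 : P j = R j) (h4 : Q j ≠ P j) :
    ∃ I : Idx l b N F, Cov (Lt ev up dn code I) {P, Q, R} := by
  have hne : i ≠ j := by
    rintro rfl
    exact h4 h1.symm
  rcases lt_or_gt_of_ne hne with h | h
  · exact pair_cov hcode hg h h1 h2 h3 h4
  · have := pair_cov (P := P) (Q := R) (R := Q) hcode hg h h3 h4 h1 h2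
    rwa [show ({P, R, Q} : Finset (Fin l → Fin b)) = {P, Q, R} by
      rw [Finset.pair_comm]] at this

/-- every triple of distinct points is covered -/
lemma cov_exists (hcode : Function.Injective code)
    (hg : ∀ a a' c c', a ≠ a' → c ≠ c' →
      ev (up a a') c ≠ ev (up a a') c' ∨ ev (dn c c') a ≠ ev (dn c c') a')
    {x y z : Fin l → Fin b} (hxy : x ≠ y) (hxz : x ≠ z) (hyz : y ≠ z) :
    ∃ I : Idx l b N F, Cov (Lt ev up dn code I) {x, y, z} := by
  have e1 : ({x, z, y} : Finset (Fin l → Fin b)) = {x, y, z} := by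
    rw [Finset.pair_comm]
  have e2 : ({y, x, z} : Finset (Fin l → Fin b)) = {x, y, z} := by
    rw [Finset.insert_comm]
  have e3 : ({y, z, x} : Finset (Fin l → Fin b)) = {x, y, z} := by
    rw [Finset.pair_comm z x, Finset.insert_comm]
  have e4 : ({z, x, y} : Finset (Fin l → Fin b)) = {x, y, z} := by
    rw [Finset.insert_comm, Finset.pair_comm z y]
  have e5 : ({z, y, x} : Finset (Fin l → Fin b)) = {x, y, z} := by
    rw [Finset.insert_comm, e3]
  by_cases hd : ∃ i, x i ≠ y i ∧ x i ≠ z i ∧ y i ≠ z i
  · obtain ⟨i, h1, h2, h3⟩ := hd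
    rcases lt_or_gt_of_ne h1 with h1 | h1 <;> rcases lt_or_gt_of_ne h2 with h2 | h2 <;>
      rcases lt_or_gt_of_ne h3 with h3 | h3
    · exact base_cov h1 h3
    · have := base_cov (N := N) (F := F) (ev := ev) (up := up) (dn := dn) (code := code) h2 h3
      rwa [e1] at this
    · exfalso; omega
    · have := base_cov (N := N) (F := F) (ev := ev) (up := up) (dn := dn) (code := code) h2 h1
      rwa [e4] at this
    · have := base_cov (N := N) (F := F) (ev := ev) (up := up) (dn := dn) (code := code) h1 h2
      rwa [e2] at this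
    · exfalso; omega
    · have := base_cov (N := N) (F := F) (ev := ev) (up := up) (dn := dn) (code := code) h3 h2
      rwa [e3] at this
    · have := base_cov (N := N) (F := F) (ev := ev) (up := up) (dn := dn) (code := code) h3 h1
      rwa [e5] at this
  · push Not at hd
    obtain ⟨i, hi⟩ := Function.ne_iff.1 hxy
    by_cases hxzi : x i = z i
    · obtain ⟨j, hj⟩ := Function.ne_iff.1 hxz
      by_cases hxyj : x j = y j
      · have := pair_cov' (P := x) (Q := z) (R := y) hcode hg hxzi (Ne.symm hi) hxyj
          (Ne.symm hj)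
        rwa [e1] at this
      · have hyzj : y j = z j := hd j hxyj hj
        have := pair_cov' (P := z) (Q := x) (R := y) (i := i) (j := j) hcode hg hxzi.symm
          (by rw [← hxzi]; exact Ne.symm hi) hyzj.symm hj
        rwa [e4] at this
    · have hyzi : y i = z i := hd i hi hxzi
      obtain ⟨j, hj⟩ := Function.ne_iff.1 hyz
      by_cases hxyj : x j = y j
      · have := pair_cov' (P := y) (Q := z) (R := x) (i := i) (j := j) hcode hg hyzi hi
          hxyj.symm (Ne.symm hj)
        rwa [e3] at this
      · have hxzj : x j = z j := by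
          by_contra hne
          exact hj (hd j hxyj hne)
        have := pair_cov' (P := z) (Q := y) (R := x) (i := i) (j := j) hcode hg hyzi.symm
          hxzi hxzj.symm hj
        rwa [e5] at this

end core

end Pool.Agent.R729.KP
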