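import Mathlib
import Pool.Agent.R729.KP.Core

namespace Pool.Agent.R729.KP

open Finset

/-- `e` is an edge of the complete `k`-partite `k`-graph with parts `X 0, …, X (k-1)` -/
def IsEdge {n k : ℕ} (X : Fin k → Finset (Fin n)) (e : Finset (Fin n)) : Prop :=
  ∃ x : Fin k → Fin n, (∀ j, x j ∈ X j) ∧ e = Finset.univ.image x

/-- `H 0, …, H (m-1)` is a `k`-partite covering of order `l` of the complete `k`-graph on
`Fin n` -/
def IsCovering (k l n m : ℕ) (H : Fin m → Fin k → Finset (Fin n)) : Prop :=
  (∀ i j, (H i j).Nonempty) ∧ (∀ i j j', j ≠ j' → Disjoint (H i j) (H i j')) ∧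
    ∀ e : Finset (Fin n), e.card = k →
      1 ≤ Nat.card {i : Fin m // IsEdge (H i) e} ∧ Nat.card {i : Fin m // IsEdge (H i) e} ≤ l

/-- assembling a covering of order `l` of the triples from a family of letter functions -/
lemma assemble {I : Type} [Fintype I] {n l : ℕ} (L : I → Fin n → ℕ)
    (h : ∀ e : Finset (Fin n), e.card = 3 → (∃ i, Cov (L i) e) ∧
      Nat.card {i : I // Cov (L i) e} ≤ l) :
    ∃ m : ℕ, m ≤ Fintype.card I ∧ ∃ H : Fin m → Fin 3 → Finset (Fin n),
      IsCovering 3 l n m H := by
  classical
  let S : Type := {i : I // ∃ u v w, L i u = 1 ∧ L i v = 2 ∧ L i w = 3}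
  let E : S ≃ Fin (Fintype.card S) := Fintype.equivFin S
  let H : Fin (Fintype.card S) → Fin 3 → Finset (Fin n) :=
    fun i j => univ.filter fun x => L (E.symm i).1 x = (j : ℕ) + 1
  have hH : ∀ i j x, x ∈ H i j ↔ L (E.symm i).1 x = (j : ℕ) + 1 := by
    intro i j x
    simp [H]
  have hedge : ∀ i e, IsEdge (H i) e ↔ Cov (L (E.symm i).1) e := by
    intro i e
    constructor
    · rintro ⟨x, hx, he⟩
      refine ⟨x 0, x 1, x 2, (hH i 0 _).1 (hx 0), (hH i 1 _).1 (hx 1), (hH i 2 _).1 (hx 2), ?_⟩
      rw [he]
      ext t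
      simp only [mem_image, mem_univ, true_and, mem_insert, mem_singleton, Fin.exists_fin_succ,
        Fin.succ_zero_eq_one, Fin.succ_one_eq_two]
      constructor
      · rintro (h | h | h | ⟨h, -⟩)
        · exact Or.inl h.symm
        · exact Or.inr (Or.inl h.symm)
        · exact Or.inr (Or.inr h.symm)
        · exact h.elim0
      · rintro (h | h | h)
        · exact Or.inl h.symm
        · exact Or.inr (Or.inl h.symm)
        · exact Or.inr (Or.inr (Or.inl h.symm))
    · rintro ⟨u, v, w, hu, hv, hw, he⟩
      refine ⟨![u, v, w], ?_, ?_⟩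
      · intro j
        rw [hH]
        fin_cases j
        · simpa using hu
        · simpa using hv
        · simpa using hw
      · rw [he]
        ext t
        simp only [mem_image, mem_univ, true_and, mem_insert, mem_singleton]
        constructor
        · rintro (h | h | h)
          · exact ⟨0, by simp [h]⟩
          · exact ⟨1, by simp [h]⟩
          · exact ⟨2, by simp [h]⟩
        · rintro ⟨j, hj⟩
          fin_cases j
          · left; simpa using hj.symm
          · right; left; simpa using hj.symm
          · right; right; simpa using hj.symm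
  refine ⟨Fintype.card S, Fintype.card_subtype_le _, H, ?_, ?_, ?_⟩
  · intro i j
    obtain ⟨u, v, w, hu, hv, hw⟩ := (E.symm i).2
    fin_cases j
    · exact ⟨u, (hH _ _ _).2 (by simpa using hu)⟩
    · exact ⟨v, (hH _ _ _).2 (by simpa using hv)⟩
    · exact ⟨w, (hH _ _ _).2 (by simpa using hw)⟩
  · intro i j j' hjj
    rw [Finset.disjoint_left]
    intro x hx hx'
    rw [hH] at hx hx'
    apply hjj
    ext
    omega
  · intro e he
    obtain ⟨⟨i, hi⟩, h2⟩ := h e he
    constructor
    · have hi' := hi
      obtain ⟨u, v, w, hu, hv, hw, -⟩ := hi'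
      have : Nonempty {i : Fin (Fintype.card S) // IsEdge (H i) e} := by
        refine ⟨⟨E ⟨i, u, v, w, hu, hv, hw⟩, ?_⟩⟩
        rw [hedge, Equiv.symm_apply_apply]
        exact hi
      exact Nat.card_pos
    · refine le_trans ?_ h2
      refine Nat.card_le_card_of_injective
        (fun i : {i : Fin (Fintype.card S) // IsEdge (H i) e} =>
          (⟨(E.symm i.1).1, (hedge _ _).1 i.2⟩ : {i : I // Cov (L i) e})) ?_
      intro a b hab
      have h1 : (E.symm a.1).1 = (E.symm b.1).1 := congrArg (fun t => t.1) hab
      exact Subtype.ext (E.symm.injective (Subtype.ext h1))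

/-- pulling back along an injection -/
lemma cov_pull {n : ℕ} {V : Type} [DecidableEq V] (φ : Fin n → V) (hφ : Function.Injective φ)
    (L : V → ℕ) (e : Finset (Fin n)) :
    Cov (fun x => L (φ x)) e ↔ Cov L (e.image φ) := by
  constructor
  · rintro ⟨u, v, w, hu, hv, hw, he⟩
    refine ⟨φ u, φ v, φ w, hu, hv, hw, ?_⟩
    rw [he]
    simp [Finset.image_insert]
  · rintro ⟨u, v, w, hu, hv, hw, he⟩
    have mu : u ∈ e.image φ := by rw [he]; simp
    have mv : v ∈ e.image φ := by rw [he]; simp
    have mw : w ∈ e.image φ := by rw [he]; simp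
    obtain ⟨u', -, rfl⟩ := Finset.mem_image.1 mu
    obtain ⟨v', -, rfl⟩ := Finset.mem_image.1 mv
    obtain ⟨w', -, rfl⟩ := Finset.mem_image.1 mw
    refine ⟨u', v', w', hu, hv, hw, ?_⟩
    apply Finset.image_injective hφ
    rw [he]
    simp [Finset.image_insert]

/-- the covering obtained from the digit construction -/
lemma covering_of_digits {l b N n : ℕ} {F G : Type} [DecidableEq F] [Fintype F]
    (ev : F → Fin b → G) (up dn : Fin b → Fin b → F) (code : (Fin l → G) → Fin N)
    (hcode : Function.Injective code)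
    (hg : ∀ a a' c c', a ≠ a' → c ≠ c' →
      ev (up a a') c ≠ ev (up a a') c' ∨ ev (dn c c') a ≠ ev (dn c c') a')
    (hn : n ≤ b ^ l) :
    ∃ m : ℕ, m ≤ l * b + l * (b * (Fintype.card F * (Fintype.card F * N))) ∧
      ∃ H : Fin m → Fin 3 → Finset (Fin n), IsCovering 3 l n m H := by
  classical
  have hcard : Fintype.card (Fin n) ≤ Fintype.card (Fin l → Fin b) := by
    simpa using hn
  obtain ⟨φ⟩ := Function.Embedding.nonempty_of_card_le hcard
  have key := assemble (I := Idx l b N F) (n := n) (l := l)
    (fun I x => Lt ev up dn code I (φ x)) ?_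
  · obtain ⟨m, hm, H, hH⟩ := key
    refine ⟨m, ?_, H, hH⟩
    simpa [Idx, Fintype.card_sum, Fintype.card_prod] using hm
  · intro e he
    constructor
    · obtain ⟨x, y, z, hxy, hxz, hyz, rfl⟩ := Finset.card_eq_three.1 he
      obtain ⟨I, hI⟩ := cov_exists (N := N) (F := F) (ev := ev) (up := up) (dn := dn)
        (code := code) hcode hg (x := φ x) (y := φ y) (z := φ z)
        (fun h => hxy (φ.injective h)) (fun h => hxz (φ.injective h))
        (fun h => hyz (φ.injective h))
      refine ⟨I, ?_⟩
      rw [cov_pull φ φ.injective]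
      simpa [Finset.image_insert] using hI
    · have : Nat.card {i : Idx l b N F // Cov (fun x => Lt ev up dn code i (φ x)) e} ≤
          Nat.card (Fin l) := by
        refine Nat.card_le_card_of_injective (fun i => crd i.1) ?_
        intro i j hij
        apply Subtype.ext
        exact cov_inj ((cov_pull φ φ.injective _ _).1 i.2) ((cov_pull φ φ.injective _ _).1 j.2)
          hij
      simpa using this

end Pool.Agent.R729.KP
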