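import Mathlib
import Pool.Agent.R729.KP.Asm

namespace Pool.Agent.R729.KP

open Finset

/-- covering by a partial labelling with values in `Fin k` -/
def CovK {V : Type} [DecidableEq V] {k : ℕ} (L : V → Option (Fin k)) (e : Finset V) : Prop :=
  ∃ x : Fin k → V, (∀ c, L (x c) = some c) ∧ e = univ.image x

/-- covering by a partial labelling `f` with set of labels `D` -/
def CovD {V Δ : Type} [DecidableEq V] [DecidableEq Δ] (f : V → Option Δ) (D : Finset Δ)
    (e : Finset V) : Prop :=
  e.image f = D.image some ∧ Set.InjOn f e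

lemma covD_iff {V Δ : Type} [DecidableEq V] [DecidableEq Δ] {k : ℕ} (f : V → Option Δ)
    (D : Finset Δ) (hD : D.card = k) :
    ∃ L : V → Option (Fin k), ∀ e, CovK L e ↔ CovD f D e := by
  classical
  have hc : Fintype.card D = k := by simpa using hD
  let E : D ≃ Fin k := Fintype.equivFinOfCardEq hc
  let L : V → Option (Fin k) := fun x =>
    match f x with
    | some d => if h : d ∈ D then some (E ⟨d, h⟩) else none
    | none => none
  have hL : ∀ x c, L x = some c ↔ f x = some (E.symm c).1 := by
    intro x c
    simp only [L]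
    cases hfx : f x with
    | none => simp
    | some d =>
      simp only
      split_ifs with h
      · rw [Option.some_inj, Option.some_inj]
        constructor
        · intro h1
          rw [← h1, Equiv.symm_apply_apply]
        · intro h1
          subst h1
          exact E.apply_symm_apply c
      · constructor
        · intro h1
          exact absurd h1 (by simp)
        · intro h1
          rw [Option.some_inj] at h1
          exact absurd (h1 ▸ (E.symm c).2) h
  refine ⟨L, fun e => ⟨?_, ?_⟩⟩
  · rintro ⟨x, hx, he⟩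
    have hx' : ∀ c, f (x c) = some (E.symm c).1 := fun c => (hL _ _).1 (hx c)
    constructor
    · ext o
      rw [he]
      simp only [mem_image, mem_univ, true_and]
      constructor
      · rintro ⟨y, ⟨c, rfl⟩, rfl⟩
        exact ⟨(E.symm c).1, (E.symm c).2, (hx' c).symm⟩
      · rintro ⟨d, hd, rfl⟩
        refine ⟨x (E ⟨d, hd⟩), ⟨_, rfl⟩, ?_⟩
        rw [hx', Equiv.symm_apply_apply]
    · intro y hy y' hy' hyy
      rw [he] at hy hy'
      simp only [coe_image, coe_univ, Set.image_univ, Set.mem_range] at hy hy'
      obtain ⟨c, rfl⟩ := hy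
      obtain ⟨c', rfl⟩ := hy'
      rw [hx', hx', Option.some_inj] at hyy
      have : E.symm c = E.symm c' := Subtype.ext hyy
      rw [E.symm.injective this]
  · rintro ⟨h1, h2⟩
    have h3 : ∀ c : Fin k, ∃ x ∈ e, f x = some (E.symm c).1 := by
      intro c
      have : some (E.symm c).1 ∈ e.image f := by
        rw [h1]
        exact mem_image_of_mem _ (E.symm c).2
      simpa using this
    choose x hx1 hx2 using h3
    refine ⟨x, fun c => (hL _ _).2 (hx2 c), ?_⟩
    ext y
    simp only [mem_image, mem_univ, true_and]
    constructor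
    · intro hy
      have : f y ∈ D.image some := by
        rw [← h1]
        exact mem_image_of_mem _ hy
      rw [mem_image] at this
      obtain ⟨d, hd, hdy⟩ := this
      refine ⟨E ⟨d, hd⟩, ?_⟩
      apply h2 (hx1 _) hy
      rw [hx2, Equiv.symm_apply_apply, ← hdy]
    · rintro ⟨c, rfl⟩
      exact hx1 c

/-- assembling a covering of order `l` of the `k`-sets -/
lemma assembleK {I : Type} [Fintype I] {n k l : ℕ} (L : I → Fin n → Option (Fin k))
    (h : ∀ e : Finset (Fin n), e.card = k → (∃ i, CovK (L i) e) ∧
      Nat.card {i : I // CovK (L i) e} ≤ l) :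
    ∃ m : ℕ, m ≤ Fintype.card I ∧ ∃ H : Fin m → Fin k → Finset (Fin n),
      IsCovering k l n m H := by
  classical
  let S : Type := {i : I // ∃ x : Fin k → Fin n, ∀ c, L i (x c) = some c}
  let E : S ≃ Fin (Fintype.card S) := Fintype.equivFin S
  let H : Fin (Fintype.card S) → Fin k → Finset (Fin n) :=
    fun i j => univ.filter fun x => L (E.symm i).1 x = some j
  have hH : ∀ i j x, x ∈ H i j ↔ L (E.symm i).1 x = some j := by
    intro i j x
    simp [H]
  have hedge : ∀ i e, IsEdge (H i) e ↔ CovK (L (E.symm i).1) e := by
    intro i e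
    unfold IsEdge CovK
    simp only [hH]
  refine ⟨Fintype.card S, Fintype.card_subtype_le _, H, ?_, ?_, ?_⟩
  · intro i j
    obtain ⟨x, hx⟩ := (E.symm i).2
    exact ⟨x j, (hH _ _ _).2 (hx j)⟩
  · intro i j j' hjj
    rw [Finset.disjoint_left]
    intro x hx hx'
    rw [hH] at hx hx'
    rw [hx, Option.some_inj] at hx'
    exact hjj hx'
  · intro e he
    obtain ⟨⟨i, hi⟩, h2⟩ := h e he
    constructor
    · have hi' := hi
      obtain ⟨x, hx, -⟩ := hi'
      have : Nonempty {i : Fin (Fintype.card S) // IsEdge (H i) e} := by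
        refine ⟨⟨E ⟨i, x, hx⟩, ?_⟩⟩
        rw [hedge, Equiv.symm_apply_apply]
        exact hi
      exact Nat.card_pos
    · refine le_trans ?_ h2
      refine Nat.card_le_card_of_injective
        (fun i : {i : Fin (Fintype.card S) // IsEdge (H i) e} =>
          (⟨(E.symm i.1).1, (hedge _ _).1 i.2⟩ : {i : I // CovK (L i) e})) ?_
      intro a b hab
      have h1 : (E.symm a.1).1 = (E.symm b.1).1 := congrArg (fun t => t.1) hab
      exact Subtype.ext (E.symm.injective (Subtype.ext h1))

/-- pulling back along an injection -/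
lemma covK_pull {n k : ℕ} {V : Type} [DecidableEq V] (φ : Fin n → V)
    (hφ : Function.Injective φ) (L : V → Option (Fin k)) (e : Finset (Fin n)) :
    CovK (fun x => L (φ x)) e ↔ CovK L (e.image φ) := by
  constructor
  · rintro ⟨x, hx, he⟩
    refine ⟨fun c => φ (x c), hx, ?_⟩
    rw [he, Finset.image_image]
    rfl
  · rintro ⟨x, hx, he⟩
    have h1 : ∀ c, ∃ y, φ y = x c := by
      intro c
      have : x c ∈ e.image φ := by
        rw [he]; exact mem_image_of_mem _ (mem_univ _)
      obtain ⟨y, -, hy⟩ := mem_image.1 this
      exact ⟨y, hy⟩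
    choose y hy using h1
    refine ⟨y, fun c => by simpa [hy c] using hx c, ?_⟩
    apply Finset.image_injective hφ
    rw [he, Finset.image_image]
    congr 1
    funext c
    exact (hy c).symm

end Pool.Agent.R729.KP
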