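import Mathlib
import Pool.Agent.R729.KP.Asm

namespace Pool.Agent.R729.KP

open Finset

/-- two distinct polynomials of degree `< h` agree in fewer than `h` points -/
lemma agree_lt {p h : ℕ} [Fact p.Prime] {c d : Fin h → ZMod p} (hcd : c ≠ d) :
    (univ.filter fun t : ZMod p =>
      ∑ k, c k * t ^ (k : ℕ) = ∑ k, d k * t ^ (k : ℕ)).card < h := by
  classical
  obtain ⟨k0, hk0⟩ := Function.ne_iff.1 hcd
  have hh : 0 < h := lt_of_le_of_lt (Nat.zero_le _) k0.2
  let P : Polynomial (ZMod p) := ∑ k : Fin h, Polynomial.monomial (k : ℕ) (c k - d k)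
  have hcoef : P.coeff (k0 : ℕ) = c k0 - d k0 := by
    simp only [P, Polynomial.finset_sum_coeff, Polynomial.coeff_monomial]
    rw [Finset.sum_eq_single k0]
    · simp
    · intro b _ hb
      rw [if_neg]
      intro hbk
      exact hb (Fin.ext hbk)
    · simp
  have hP : P ≠ 0 := by
    intro h0
    rw [h0, Polynomial.coeff_zero] at hcoef
    exact hk0 (sub_eq_zero.1 hcoef.symm)
  have hdeg : P.natDegree < h := by
    have : P.natDegree ≤ h - 1 := by
      apply Polynomial.natDegree_sum_le_of_forall_le
      intro i _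
      refine le_trans (Polynomial.natDegree_monomial_le _) ?_
      omega
    omega
  have heval : ∀ t, P.eval t = ∑ k, c k * t ^ (k : ℕ) - ∑ k, d k * t ^ (k : ℕ) := by
    intro t
    simp only [P, Polynomial.eval_finset_sum, Polynomial.eval_monomial]
    rw [← Finset.sum_sub_distrib]
    exact Finset.sum_congr rfl (fun k _ => by ring)
  have hsub : (univ.filter fun t : ZMod p =>
      ∑ k, c k * t ^ (k : ℕ) = ∑ k, d k * t ^ (k : ℕ)) ⊆ P.roots.toFinset := by
    intro t ht
    rw [Multiset.mem_toFinset, Polynomial.mem_roots hP, Polynomial.IsRoot, heval]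
    simp only [mem_filter, mem_univ, true_and] at ht
    rw [ht, sub_self]
  calc _ ≤ P.roots.toFinset.card := Finset.card_le_card hsub
    _ ≤ Multiset.card P.roots := Multiset.toFinset_card_le _
    _ ≤ P.natDegree := Polynomial.card_roots' P
    _ < h := hdeg

/-- the two-player game: the choice of positions -/
lemma game {A T : Type} [DecidableEq T] [Fintype T] {h : ℕ} (hT : 2 ^ (h * h) ≤ Fintype.card T)
    (ag : A → A → Finset T) (hag : ∀ a a', a ≠ a' → (ag a a').card < h) :
    ∃ up dn : A → A → T, ∀ a a' c c', a ≠ a' → c ≠ c' →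
      up a a' ∉ ag c c' ∨ dn c c' ∉ ag a a' := by
  classical
  have h1 : Fintype.card (Finset (Fin (h * h))) ≤ Fintype.card T := by
    simpa using hT
  obtain ⟨enc⟩ := Function.Embedding.nonempty_of_card_le h1
  have h2 : Fintype.card (Fin (h * h)) ≤ Fintype.card T := by
    refine le_trans ?_ hT
    simpa using Nat.lt_two_pow_self.le
  obtain ⟨J⟩ := Function.Embedding.nonempty_of_card_le h2
  -- the union of the sets coded in the agreement set is not everything
  have h3 : ∀ c c' : A, c ≠ c' → ∃ q : Fin (h * h), ∀ R : Finset (Fin (h * h)),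
      R.card < h → enc R ∈ ag c c' → q ∉ R := by
    intro c c' hc
    have hlt := hag c c' hc
    let B : Finset (Finset (Fin (h * h))) :=
      univ.filter fun R => R.card < h ∧ enc R ∈ ag c c'
    have hB : B.card < h := by
      refine lt_of_le_of_lt ?_ hlt
      refine Finset.card_le_card_of_injOn enc ?_ enc.injective.injOn
      intro R hR
      simp only [B, coe_filter, Set.mem_setOf_eq, mem_univ, true_and] at hR
      exact hR.2
    have hU : (B.biUnion id).card < Fintype.card (Fin (h * h)) := by
      have : (B.biUnion id).card ≤ B.card * h := by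
        apply Finset.card_biUnion_le_card_mul
        intro R hR
        simp only [B, mem_filter, mem_univ, true_and] at hR
        exact hR.1.le
      have h5 : B.card * h < h * h := Nat.mul_lt_mul_of_pos_right hB (by omega)
      simpa using lt_of_le_of_lt this h5
    obtain ⟨q, hq⟩ : ∃ q, q ∉ B.biUnion id := by
      by_contra hcon
      push Not at hcon
      have : B.biUnion id = univ := Finset.eq_univ_iff_forall.2 hcon
      rw [this, Finset.card_univ] at hU
      exact lt_irrefl _ hU
    refine ⟨q, fun R hR hRe hqR => hq ?_⟩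
    rw [Finset.mem_biUnion]
    exact ⟨R, by simp [B, hR, hRe], hqR⟩
  have h4 : ∀ c c' : A, ∃ t : T, c ≠ c' → ∃ q : Fin (h * h), t = J q ∧
      ∀ R : Finset (Fin (h * h)), R.card < h → enc R ∈ ag c c' → q ∉ R := by
    intro c c'
    by_cases hc : c = c'
    · exact ⟨enc ∅, fun hne => absurd hc hne⟩
    · obtain ⟨q, hq⟩ := h3 c c' hc
      exact ⟨J q, fun _ => ⟨q, rfl, hq⟩⟩
  choose dn hdn using h4
  refine ⟨fun a a' => enc (univ.filter fun q => J q ∈ ag a a'), dn, ?_⟩
  intro a a' c c' ha hc
  by_contra hcon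
  push Not at hcon
  obtain ⟨hup, hd⟩ := hcon
  obtain ⟨q, hq1, hq2⟩ := hdn c c' hc
  refine hq2 _ ?_ hup ?_
  · refine lt_of_le_of_lt ?_ (hag a a' ha)
    refine Finset.card_le_card_of_injOn J ?_ J.injective.injOn
    intro r hr
    simpa using hr
  · rw [hq1] at hd
    simpa using hd

/-- the covering over the prime field -/
lemma covering_prime {l h p n : ℕ} [Fact p.Prime] (hp : 2 ^ (h * h) ≤ p)
    (hn : n ≤ (p ^ h) ^ l) :
    ∃ m : ℕ, m ≤ l * p ^ h + l * (p ^ h * (p * (p * p ^ l))) ∧
      ∃ H : Fin m → Fin 3 → Finset (Fin n), IsCovering 3 l n m H := by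
  classical
  have hA : Fintype.card (Fin h → ZMod p) = p ^ h := by simp [ZMod.card]
  have hC : Fintype.card (Fin l → ZMod p) = p ^ l := by simp [ZMod.card]
  let eA : Fin (p ^ h) ≃ (Fin h → ZMod p) := (Fintype.equivFinOfCardEq hA).symm
  let code : (Fin l → ZMod p) ≃ Fin (p ^ l) := Fintype.equivFinOfCardEq hC
  let ev : ZMod p → Fin (p ^ h) → ZMod p := fun t a => ∑ k, eA a k * t ^ (k : ℕ)
  have hT : 2 ^ (h * h) ≤ Fintype.card (ZMod p) := by simpa [ZMod.card] using hp
  obtain ⟨up, dn, hg⟩ := game (A := Fin (p ^ h)) (T := ZMod p) hT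
    (fun a a' => univ.filter fun t => ev t a = ev t a') (fun a a' haa =>
      agree_lt (fun h => haa (eA.injective h)))
  have := covering_of_digits (n := n) ev up dn code code.injective (fun a a' c c' ha hc => by
    simpa using hg a a' c c' ha hc) hn
  simpa [ZMod.card] using this

end Pool.Agent.R729.KP
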