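import Mathlib
import Pool.Agent.R729.KP.Digits

namespace Pool.Agent.R729.KP

open Finset

/-- the upper bound: `k = 3`, every order `l`, exponent `1/l + ε` -/
theorem upper (l : ℕ) (hl : 1 ≤ l) (ε : ℝ) (hε : 0 < ε) :
    ∃ C : ℝ, 0 < C ∧ ∀ n : ℕ, 1 ≤ n → ∃ m : ℕ, (m : ℝ) ≤ C * (n : ℝ) ^ ((1 : ℝ) / l + ε) ∧
      ∃ H : Fin m → Fin 3 → Finset (Fin n), IsCovering 3 l n m H := by
  have hl0 : (0 : ℝ) < l := by exact_mod_cast hl
  obtain ⟨h0, hh0⟩ := exists_nat_ge (((l : ℝ) + 2) / (l * ε))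
  let h : ℕ := max 1 h0
  have hh1 : 1 ≤ h := le_max_left _ _
  have hhR : (0 : ℝ) < h := by exact_mod_cast hh1
  have hh : ((l : ℝ) + 2) / (l * ε) ≤ h := le_trans hh0 (by exact_mod_cast le_max_right 1 h0)
  have hexp : ((h : ℝ) + l + 2) / (h * l) ≤ 1 / l + ε := by
    rw [div_le_iff₀ (by positivity)] at hh
    rw [div_le_iff₀ (by positivity)]
    have : (1 / (l : ℝ) + ε) * (h * l) = h + h * (l * ε) := by
      field_simp
    rw [this]
    linarith
  let Q : ℕ := 2 ^ (h * h)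
  have hQ : 1 ≤ Q := Nat.one_le_two_pow
  refine ⟨2 * l * (4 * Q) ^ (h + l + 2), by positivity, ?_⟩
  intro n hn
  have hnR : (1 : ℝ) ≤ n := by exact_mod_cast hn
  let x : ℝ := (n : ℝ) ^ ((1 : ℝ) / (h * l))
  have hx1 : 1 ≤ x := Real.one_le_rpow hnR (by positivity)
  let r : ℕ := ⌈x⌉₊
  have hr1 : 1 ≤ r := Nat.one_le_iff_ne_zero.2 (by
    intro h0
    have := Nat.le_ceil x
    have h0' : (⌈x⌉₊ : ℝ) = 0 := by exact_mod_cast h0
    rw [h0'] at this
    linarith)
  have hrx : (r : ℝ) ≤ 2 * x := by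
    have := Nat.ceil_lt_add_one (a := x) (by linarith)
    have h2 : (r : ℝ) < x + 1 := this
    linarith
  have hnr : n ≤ r ^ (h * l) := by
    have h1 : x ≤ r := Nat.le_ceil x
    have h2 : x ^ (h * l) ≤ (r : ℝ) ^ (h * l) := pow_le_pow_left₀ (by linarith) h1 _
    have h3 : x ^ (h * l) = n := by
      rw [← Real.rpow_natCast, ← Real.rpow_mul (by linarith)]
      have : (1 : ℝ) / (h * l) * ((h * l : ℕ) : ℝ) = 1 := by
        push_cast
        field_simp
      rw [this, Real.rpow_one]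
    rw [h3] at h2
    exact_mod_cast h2
  obtain ⟨p, hp, hp1, hp2⟩ := Nat.exists_prime_lt_and_le_two_mul (r * Q) (by positivity)
  haveI : Fact p.Prime := ⟨hp⟩
  have hQp : 2 ^ (h * h) ≤ p := by
    have : Q ≤ r * Q := Nat.le_mul_of_pos_left _ hr1
    exact le_trans this hp1.le
  have hrp : r ≤ p := by
    have : r ≤ r * Q := Nat.le_mul_of_pos_right _ hQ
    exact le_trans this hp1.le
  have hnp : n ≤ (p ^ h) ^ l := by
    rw [← pow_mul]
    exact le_trans hnr (Nat.pow_le_pow_left hrp _)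
  obtain ⟨m, hm, H, hH⟩ := covering_prime (l := l) (h := h) (p := p) (n := n) hQp hnp
  refine ⟨m, ?_, H, hH⟩
  have hp1' : 1 ≤ p := hp.one_lt.le
  have hm2 : m ≤ 2 * l * p ^ (h + l + 2) := by
    refine le_trans hm ?_
    have e1 : p ^ h * (p * (p * p ^ l)) = p ^ (h + l + 2) := by ring
    rw [e1]
    have e2 : p ^ h ≤ p ^ (h + l + 2) := Nat.pow_le_pow_right hp1' (by omega)
    have e3 : l * p ^ h ≤ l * p ^ (h + l + 2) := Nat.mul_le_mul_left _ e2
    calc _ ≤ l * p ^ (h + l + 2) + l * p ^ (h + l + 2) := Nat.add_le_add_right e3 _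
      _ = 2 * l * p ^ (h + l + 2) := by ring
  have hpx : (p : ℝ) ≤ 4 * Q * x := by
    have h1 : (p : ℝ) ≤ 2 * (r * Q) := by exact_mod_cast hp2
    have h2 : (r : ℝ) * Q ≤ 2 * x * Q := mul_le_mul_of_nonneg_right hrx (by positivity)
    linarith
  calc (m : ℝ) ≤ 2 * l * (p : ℝ) ^ (h + l + 2) := by exact_mod_cast hm2
    _ ≤ 2 * l * (4 * Q * x) ^ (h + l + 2) := by
        apply mul_le_mul_of_nonneg_left _ (by positivity)
        exact pow_le_pow_left₀ (by positivity) hpx _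
    _ = 2 * l * (4 * Q) ^ (h + l + 2) * x ^ (h + l + 2) := by
        rw [mul_pow]; ring
    _ ≤ 2 * l * (4 * Q) ^ (h + l + 2) * (n : ℝ) ^ ((1 : ℝ) / l + ε) := by
        apply mul_le_mul_of_nonneg_left _ (by positivity)
        have : x ^ (h + l + 2) = (n : ℝ) ^ (((h : ℝ) + l + 2) / (h * l)) := by
          rw [← Real.rpow_natCast, ← Real.rpow_mul (by linarith)]
          congr 1
          push_cast
          ring
        rw [this]
        exact Real.rpow_le_rpow_of_exponent_le hnR hexp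

end Pool.Agent.R729.KP
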