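import Mathlib
import Pool.Agent.R729.KP.Upper

namespace Pool.Agent.R729.KP

open Finset

section lower

variable {l n m : ℕ} (H : Fin m → Fin 3 → Finset (Fin n)) (z : Fin n)

open Classical in
/-- generating functions -/
noncomputable def gen (o : Option (Fin m × Fin 3)) (y : Fin n) : ℚ :=
  match o with
  | none => 1
  | some (i, c) => if y ∈ H i c then 1 else 0

open Classical in
/-- coefficients of the link of the pair `x, z` -/
noncomputable def cf (x : Fin n) (i : Fin m) (c : Fin 3) : ℚ :=
  if ∃ c' c'' : Fin 3, c ≠ c' ∧ c ≠ c'' ∧ c' ≠ c'' ∧ x ∈ H i c' ∧ z ∈ H i c'' then 1 else 0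

open Classical in
/-- the multiplicity as a combination of the indicator functions -/
noncomputable def gg (x y : Fin n) : ℚ :=
  ∑ i, ∑ c, cf H z x i c * gen H (some (i, c)) y

variable {H} {z}

lemma fin3 : ∀ c c' c'' j : Fin 3, c ≠ c' → c ≠ c'' → c' ≠ c'' → j ≠ c → j ≠ c' →
    j = c'' := by
  intro c c' c'' j h1 h2 h3 h4 h5
  omega

lemma gg_self (hd : ∀ i j j', j ≠ j' → Disjoint (H i j) (H i j')) (x : Fin n) :
    gg H z x x = 0 := by
  classical
  unfold gg
  apply Finset.sum_eq_zero
  intro i _
  apply Finset.sum_eq_zero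
  intro c _
  by_cases h2 : x ∈ H i c
  · have h5 : cf H z x i c = 0 := by
      unfold cf
      rw [if_neg]
      rintro ⟨c', c'', h3, -, -, h4, -⟩
      exact absurd h4 (Finset.disjoint_left.1 (hd i c c' h3) h2)
    rw [h5, zero_mul]
  · have h5 : gen H (some (i, c)) x = 0 := by
      simp [gen, h2]
    rw [h5, mul_zero]

lemma inner (hd : ∀ i j j', j ≠ j' → Disjoint (H i j) (H i j')) {x y : Fin n} (hxy : x ≠ y)
    (hxz : x ≠ z) (hyz : y ≠ z) (i : Fin m) [Decidable (IsEdge (H i) {x, y, z})] :
    ∑ c, cf H z x i c * gen H (some (i, c)) y = if IsEdge (H i) {x, y, z} then 1 else 0 := by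
  classical
  by_cases hy : ∃ c, y ∈ H i c
  · obtain ⟨c, hc⟩ := hy
    rw [Finset.sum_eq_single c]
    · have : gen H (some (i, c)) y = 1 := by simp [gen, hc]
      rw [this, mul_one]
      unfold cf
      congr 1
      apply propext
      constructor
      · rintro ⟨c', c'', h1, h2, h3, h4, h5⟩
        refine ⟨fun t => if t = c then y else if t = c' then x else z, ?_, ?_⟩
        · intro j
          dsimp only
          split_ifs with e1 e2
          · rw [e1]; exact hc
          · rw [e2]; exact h4
          · have : j = c'' := fin3 c c' c'' j h1 h2 h3 e1 e2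
            rw [this]; exact h5
        · ext t
          simp only [mem_insert, mem_singleton, mem_image, mem_univ, true_and]
          constructor
          · rintro (h | h | h)
            · exact ⟨c', by rw [if_neg (Ne.symm h1), if_pos rfl, h]⟩
            · exact ⟨c, by rw [if_pos rfl, h]⟩
            · exact ⟨c'', by rw [if_neg (Ne.symm h2), if_neg (Ne.symm h3), h]⟩
          · rintro ⟨j, hj⟩
            split_ifs at hj with e1 e2
            · exact Or.inr (Or.inl hj.symm)
            · exact Or.inl hj.symm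
            · exact Or.inr (Or.inr hj.symm)
      · rintro ⟨f, hf, he⟩
        have hm : ∀ t ∈ ({x, y, z} : Finset (Fin n)), ∃ j, f j = t := by
          intro t ht
          rw [he] at ht
          simpa using ht
        obtain ⟨a, ha⟩ := hm x (by simp)
        obtain ⟨b, hb⟩ := hm y (by simp)
        obtain ⟨d, hd'⟩ := hm z (by simp)
        have hbc : b = c := by
          by_contra hne
          have h1 := hf b
          rw [hb] at h1
          exact absurd hc (Finset.disjoint_left.1 (hd i b c hne) h1)
        refine ⟨a, d, ?_, ?_, ?_, ?_, ?_⟩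
        · rw [← hbc]
          rintro rfl
          exact hxy (ha.symm.trans hb)
        · rw [← hbc]
          rintro rfl
          exact hyz (hb.symm.trans hd')
        · rintro rfl
          exact hxz (ha.symm.trans hd')
        · rw [← ha]; exact hf a
        · rw [← hd']; exact hf d
    · intro c' _ hcc
      have : gen H (some (i, c')) y = 0 := by
        simp only [gen]
        rw [if_neg]
        intro h
        exact absurd hc (Finset.disjoint_left.1 (hd i c' c hcc) h)
      rw [this, mul_zero]
    · simp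
  · rw [if_neg]
    · apply Finset.sum_eq_zero
      intro c _
      have : gen H (some (i, c)) y = 0 := by
        simp only [gen]
        rw [if_neg]
        intro h
        exact hy ⟨c, h⟩
      rw [this, mul_zero]
    · rintro ⟨f, hf, he⟩
      have : y ∈ ({x, y, z} : Finset (Fin n)) := by simp
      rw [he] at this
      obtain ⟨j, -, hj⟩ := Finset.mem_image.1 this
      exact hy ⟨j, by rw [← hj]; exact hf j⟩

/-- the lower bound -/
theorem lower {l n m : ℕ} {H : Fin m → Fin 3 → Finset (Fin n)} (hH : IsCovering 3 l n m H) :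
    n ≤ (3 * m + 1) ^ l + 1 := by
  classical
  rcases Nat.eq_zero_or_pos n with h0 | hpos
  · omega
  obtain ⟨-, hd, hc⟩ := hH
  let z : Fin n := ⟨0, hpos⟩
  let Y : Type := {y : Fin n // y ≠ z}
  let S : Type := Fin l → Option (Fin m × Fin 3)
  have hgg : ∀ x y : Y, x ≠ y → ∃ t : Fin l, ((t : ℕ) : ℚ) + 1 - gg H z x.1 y.1 = 0 := by
    intro x y hxy
    have hxy' : x.1 ≠ y.1 := fun h => hxy (Subtype.ext h)
    have e1 : gg H z x.1 y.1 = (Nat.card {i : Fin m // IsEdge (H i) {x.1, y.1, z}} : ℚ) := by
      unfold gg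
      rw [Finset.sum_congr rfl (fun i _ => inner hd hxy' x.2 y.2 i)]
      rw [Finset.sum_ite, Finset.sum_const_zero, add_zero, Finset.sum_const, nsmul_eq_mul,
        mul_one, Nat.card_eq_fintype_card, Fintype.card_subtype]
    have h3 : ({x.1, y.1, z} : Finset (Fin n)).card = 3 := by
      rw [Finset.card_eq_three]
      exact ⟨x.1, y.1, z, hxy', x.2, y.2, rfl⟩
    obtain ⟨h4, h5⟩ := hc _ h3
    refine ⟨⟨Nat.card {i : Fin m // IsEdge (H i) {x.1, y.1, z}} - 1, by omega⟩, ?_⟩
    rw [e1]
    simp only
    rw [Nat.cast_sub h4]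
    push_cast
    ring
  let kap : Y → Fin l → Option (Fin m × Fin 3) → ℚ := fun x t o =>
    match o with
    | none => (t : ℕ) + 1
    | some (i, c) => - cf H z x.1 i c
  have hlin : ∀ (x y : Y) (t : Fin l),
      ((t : ℕ) : ℚ) + 1 - gg H z x.1 y.1 = ∑ o, kap x t o * gen H o y.1 := by
    intro x y t
    rw [Fintype.sum_option, Fintype.sum_prod_type]
    simp only [kap, neg_mul, Finset.sum_neg_distrib]
    have : gen H (none : Option (Fin m × Fin 3)) y.1 = 1 := rfl
    rw [this, mul_one]
    unfold gg
    ring
  let A : Matrix Y S ℚ := Matrix.of fun x s => ∏ t, kap x t (s t)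
  let B : Matrix S Y ℚ := Matrix.of fun s y => ∏ t, gen H (s t) y.1
  have hAB : A * B = ((∏ t : Fin l, (((t : ℕ) : ℚ) + 1)) • (1 : Matrix Y Y ℚ)) := by
    ext x y
    rw [Matrix.mul_apply]
    have e1 : ∑ s, A x s * B s y = ∏ t : Fin l, (((t : ℕ) : ℚ) + 1 - gg H z x.1 y.1) := by
      simp only [hlin]
      rw [Finset.prod_univ_sum]
      simp only [Fintype.piFinset_univ]
      apply Finset.sum_congr rfl
      intro s _
      simp only [A, B, Matrix.of_apply]
      rw [← Finset.prod_mul_distrib]
    rw [e1, Matrix.smul_apply]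
    by_cases hxy : x = y
    · subst hxy
      rw [Matrix.one_apply_eq, gg_self hd]
      simp
    · rw [Matrix.one_apply_ne hxy, smul_zero]
      obtain ⟨t, ht⟩ := hgg x y hxy
      exact Finset.prod_eq_zero (Finset.mem_univ t) ht
  have hne : (∏ t : Fin l, (((t : ℕ) : ℚ) + 1)) ≠ 0 := by
    rw [Finset.prod_ne_zero_iff]
    intro t _
    positivity
  have hone : (1 : Matrix Y Y ℚ) = ((∏ t : Fin l, (((t : ℕ) : ℚ) + 1))⁻¹ • A) * B := by
    rw [Matrix.smul_mul, hAB, smul_smul, inv_mul_cancel₀ hne, one_smul]
  have hrank : Fintype.card Y ≤ Fintype.card S := by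
    have h1 : (1 : Matrix Y Y ℚ).rank = Fintype.card Y := Matrix.rank_one
    rw [← h1, hone]
    refine le_trans (Matrix.rank_mul_le_left _ _) ?_
    exact Matrix.rank_le_card_width _
  have hY : Fintype.card Y = n - 1 := by
    simp [Y, Fintype.card_subtype_compl]
  have hS : Fintype.card S = (3 * m + 1) ^ l := by
    simp [S, Fintype.card_option, Fintype.card_prod, mul_comm]
  rw [hY, hS] at hrank
  omega

end lower

end Pool.Agent.R729.KP
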