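import Mathlib
import Pool.Agent.R729.KP.Lower

namespace Pool.Agent.R729.KP

open Finset

/-- `m_{k,l}(n)`: the least size of a `k`-partite covering of order `l` of the complete
`k`-graph on `n` points -/
noncomputable def minCov (k l n : ℕ) : ℕ :=
  sInf {m | ∃ H : Fin m → Fin k → Finset (Fin n), IsCovering k l n m H}

theorem minCov_three (l : ℕ) (hl : 1 ≤ l) :
    (∀ n : ℕ, 1 ≤ n → ∃ H : Fin (minCov 3 l n) → Fin 3 → Finset (Fin n),
      IsCovering 3 l n (minCov 3 l n) H) ∧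
    (∀ n : ℕ, 3 ≤ n → (1 / 8 : ℝ) * (n : ℝ) ^ ((1 : ℝ) / l) ≤ minCov 3 l n) ∧
    (∀ ε : ℝ, 0 < ε → ∃ C : ℝ, 0 < C ∧ ∀ n : ℕ, 1 ≤ n →
      (minCov 3 l n : ℝ) ≤ C * (n : ℝ) ^ ((1 : ℝ) / l + ε)) := by
  have hex : ∀ n : ℕ, 1 ≤ n → (minCov 3 l n) ∈
      {m | ∃ H : Fin m → Fin 3 → Finset (Fin n), IsCovering 3 l n m H} := by
    intro n hn
    obtain ⟨C, -, hC⟩ := upper l hl 1 one_pos
    obtain ⟨m, -, H, hH⟩ := hC n hn
    exact Nat.sInf_mem ⟨m, H, hH⟩
  refine ⟨hex, ?_, ?_⟩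
  · intro n hn
    obtain ⟨H, hH⟩ := hex n (by omega)
    have h1 := lower hH
    set m := minCov 3 l n with hm
    have hm1 : 1 ≤ m := by
      by_contra h0
      have h0' : m = 0 := by omega
      rw [h0'] at h1
      simp at h1
      omega
    have h2 : (n : ℝ) / 2 ≤ (4 * m : ℝ) ^ l := by
      have h3 : n ≤ 2 * (3 * m + 1) ^ l := by
        have : 1 ≤ (3 * m + 1) ^ l := Nat.one_le_pow _ _ (by omega)
        omega
      have h4 : (3 * m + 1) ^ l ≤ (4 * m) ^ l := Nat.pow_le_pow_left (by omega) _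
      have h5 : n ≤ 2 * (4 * m) ^ l := le_trans h3 (Nat.mul_le_mul_left _ h4)
      have h6 : (n : ℝ) ≤ 2 * (4 * m) ^ l := by exact_mod_cast h5
      linarith
    have hl0 : (0 : ℝ) < l := by exact_mod_cast hl
    have h7 : ((n : ℝ) / 2) ^ ((1 : ℝ) / l) ≤ 4 * m := by
      have := Real.rpow_le_rpow (by positivity) h2 (z := (1 : ℝ) / l) (by positivity)
      rwa [← Real.rpow_natCast, ← Real.rpow_mul (by positivity),
        mul_one_div_cancel hl0.ne', Real.rpow_one] at this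
    have h8 : (n : ℝ) ^ ((1 : ℝ) / l) / 2 ≤ ((n : ℝ) / 2) ^ ((1 : ℝ) / l) := by
      rw [Real.div_rpow (by positivity) (by norm_num)]
      apply div_le_div_of_nonneg_left (by positivity) (by positivity)
      calc (2 : ℝ) ^ ((1 : ℝ) / l) ≤ 2 ^ (1 : ℝ) :=
            Real.rpow_le_rpow_of_exponent_le (by norm_num) (by
              rw [div_le_one hl0]; exact_mod_cast hl)
        _ = 2 := by norm_num
    linarith
  · intro ε hε
    obtain ⟨C, hC0, hC⟩ := upper l hl ε hε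
    refine ⟨C, hC0, ?_⟩
    intro n hn
    obtain ⟨m, hm, H, hH⟩ := hC n hn
    refine le_trans ?_ hm
    have h9 : minCov 3 l n ≤ m := Nat.sInf_le ⟨H, hH⟩
    exact_mod_cast h9

end Pool.Agent.R729.KP
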