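import Mathlib

namespace Pool.Agent.R729.KP

open Finset

/-- every self-map of `Fin l` has a cycle written from its least element -/
lemma exists_cycle {l : ℕ} (hl : 0 < l) (σ : Fin l → Fin l) :
    ∃ (a : Fin l) (m : ℕ), 0 < m ∧ m ≤ l ∧ σ^[m] a = a ∧
      ∀ s, 0 < s → s < m → a < σ^[s] a := by
  classical
  -- there is a periodic point
  have hper : ∃ a : Fin l, ∃ m, 0 < m ∧ σ^[m] a = a := by
    have : ¬ Function.Injective (fun s : Fin (l + 1) => σ^[(s : ℕ)] ⟨0, hl⟩) := by
      intro hinj
      have := Fintype.card_le_of_injective _ hinj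
      simp at this
    rw [Function.not_injective_iff] at this
    obtain ⟨s, s', h1, h2⟩ := this
    have key : ∀ s s' : ℕ, s < s' → σ^[s] ⟨0, hl⟩ = σ^[s'] ⟨0, hl⟩ →
        ∃ a : Fin l, ∃ m, 0 < m ∧ σ^[m] a = a := by
      intro s s' hlt he
      refine ⟨σ^[s] ⟨0, hl⟩, s' - s, by omega, ?_⟩
      rw [← Function.iterate_add_apply, Nat.sub_add_cancel hlt.le, he]
    have hne : (s : ℕ) ≠ s' := fun h => h2 (Fin.ext h)
    rcases lt_or_gt_of_ne hne with h | h
    · exact key _ _ h h1
    · exact key _ _ h h1.symm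
  let S : Finset (Fin l) := univ.filter fun a => ∃ m, 0 < m ∧ σ^[m] a = a
  have hS : S.Nonempty := by
    obtain ⟨a, ha⟩ := hper
    exact ⟨a, by simp only [S, mem_filter, mem_univ, true_and]; exact ha⟩
  let a := S.min' hS
  have haS : a ∈ S := S.min'_mem hS
  have ha : ∃ m, 0 < m ∧ σ^[m] a = a := by
    have := haS
    simp only [S, mem_filter, mem_univ, true_and] at this
    exact this
  have hm := Nat.find_spec ha
  set m := Nat.find ha with hmdef
  obtain ⟨hm0, hma⟩ := hm
  have hne : ∀ s, 0 < s → s < m → σ^[s] a ≠ a := by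
    intro s hs hsm he
    exact Nat.find_min ha hsm ⟨hs, he⟩
  refine ⟨a, m, hm0, ?_, hma, ?_⟩
  · have hinj : Function.Injective (fun s : Fin m => σ^[(s : ℕ)] a) := by
      have key : ∀ s s' : ℕ, s < s' → s' < m → σ^[s] a ≠ σ^[s'] a := by
        intro s s' hlt hlt' he
        have h1 : σ^[m - s' + s] a = a := by
          rw [Function.iterate_add_apply, he, ← Function.iterate_add_apply,
            Nat.sub_add_cancel hlt'.le, hma]
        exact hne (m - s' + s) (by omega) (by omega) h1
      intro s s' h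
      by_contra hss
      have : (s : ℕ) ≠ s' := fun h => hss (Fin.ext h)
      rcases lt_or_gt_of_ne this with h' | h'
      · exact key _ _ h' s'.2 h
      · exact key _ _ h' s.2 h.symm
    have := Fintype.card_le_of_injective _ hinj
    simpa using this
  · intro s hs hsm
    refine lt_of_le_of_ne ?_ (hne s hs hsm).symm
    apply Finset.min'_le
    simp only [S, mem_filter, mem_univ, true_and]
    refine ⟨m, hm0, ?_⟩
    rw [← Function.iterate_add_apply, add_comm, Function.iterate_add_apply, hma]

section messages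

variable (l u : ℕ)

/-- coding of messages -/
def enc (x : Finset (ℕ × ℕ × ℕ) × ℕ) : ℕ := Encodable.encode x

/-- the entries of a payload about block `a` with hop count `r` -/
def ent (Q : Finset (ℕ × ℕ × ℕ)) (a r : ℕ) : Finset ℕ :=
  (Q.filter fun q => q.1 = a ∧ q.2.1 = r).image fun q => q.2.2

lemma mem_ent {Q : Finset (ℕ × ℕ × ℕ)} {a r t : ℕ} : t ∈ ent Q a r ↔ (a, r, t) ∈ Q := by
  unfold ent
  simp only [mem_image, mem_filter]
  constructor
  · rintro ⟨⟨x, y, w⟩, ⟨h1, h2, h3⟩, h4⟩
    simp only at h2 h3 h4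
    subst h2 h3 h4
    exact h1
  · intro h
    exact ⟨(a, r, t), ⟨h, rfl, rfl⟩, rfl⟩

/-- the information about block `a` with hop count `r` in the message `t` -/
def Uset (t a r : ℕ) : Finset ℕ :=
  match (Encodable.decode t : Option (Finset (ℕ × ℕ × ℕ) × ℕ)) with
  | none => ∅
  | some x => if (ent x.1 a r).card ≤ u ^ (r + 1) then ent x.1 a r else ∅

lemma Uset_card (t a r : ℕ) : (Uset u t a r).card ≤ u ^ (r + 1) := by
  unfold Uset
  split
  · simp
  · split_ifs with h
    · exact h
    · simp

lemma Uset_enc {x : Finset (ℕ × ℕ × ℕ) × ℕ} {a r : ℕ} (h : (ent x.1 a r).card ≤ u ^ (r + 1)) :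
    Uset u (enc x) a r = ent x.1 a r := by
  unfold Uset enc
  rw [Encodable.encodek]
  simp only [if_pos h]

/-- bound on the number of free indices -/
def EE : ℕ := u * (l * (u + 1) ^ l) + 1

/-- the relevant positions -/
def JJ : ℕ → Finset ℕ
  | 0 => ∅
  | j + 1 => JJ j ∪ (((Finset.range l ×ˢ (Finset.range l ×ˢ JJ j)).powerset) ×ˢ
      Finset.range (EE l u)).image enc

lemma JJ_mono {i j : ℕ} (h : i ≤ j) : JJ l u i ⊆ JJ l u j := by
  induction j, h using Nat.le_induction with
  | base => exact Finset.Subset.refl _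
  | succ j _ ih =>
    refine ih.trans ?_
    rw [JJ]
    exact Finset.subset_union_left

/-- the payload of the message of player `i` for block `j` -/
def Qp (i j : ℕ) (B : Finset ℕ) : Finset (ℕ × ℕ × ℕ) :=
  (if i < j then (B ∩ JJ l u (i + 1)).image (fun t => (i, 0, t)) else ∅) ∪
    (Finset.range (min i j) ×ˢ Finset.range l).biUnion fun ar =>
      if ar.2 + 1 < l then
        (((B ∩ JJ l u (i + 1)).biUnion fun t => Uset u t ar.1 ar.2) ∩
          JJ l u (ar.1 + 1)).image (fun t => (ar.1, ar.2 + 1, t)) else ∅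

/-- the positions to be avoided -/
def Forb (i j : ℕ) (B : Finset ℕ) : Finset ℕ :=
  (B ∩ JJ l u (i + 1)).biUnion fun t => (Finset.range l).biUnion fun r => Uset u t j r

lemma Forb_card {i j : ℕ} {B : Finset ℕ} (hB : B.card ≤ u) :
    (Forb l u i j B).card < EE l u := by
  unfold Forb EE
  have h1 : ((B ∩ JJ l u (i + 1)).biUnion fun t =>
      (Finset.range l).biUnion fun r => Uset u t j r).card ≤
      (B ∩ JJ l u (i + 1)).card * (l * (u + 1) ^ l) := by
    apply Finset.card_biUnion_le_card_mul
    intro t _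
    have h2 := Finset.card_biUnion_le_card_mul (Finset.range l) (fun r => Uset u t j r)
      ((u + 1) ^ l) (by
        intro r hr
        refine le_trans (Uset_card u t j r) ?_
        rw [Finset.mem_range] at hr
        calc u ^ (r + 1) ≤ (u + 1) ^ (r + 1) := Nat.pow_le_pow_left (by omega) _
          _ ≤ (u + 1) ^ l := Nat.pow_le_pow_right (by omega) hr)
    simpa using h2
  have h3 : (B ∩ JJ l u (i + 1)).card ≤ u :=
    le_trans (Finset.card_le_card Finset.inter_subset_left) hB
  have h4 := Nat.mul_le_mul_right (l * (u + 1) ^ l) h3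
  omega

lemma exists_free {i j : ℕ} {B : Finset ℕ} (hB : B.card ≤ u) :
    ∃ e, e < EE l u ∧ enc (Qp l u i j B, e) ∉ Forb l u i j B := by
  by_contra hcon
  push Not at hcon
  have h1 : (Finset.range (EE l u)).card ≤ (Forb l u i j B).card := by
    refine Finset.card_le_card_of_injOn (fun e => enc (Qp l u i j B, e)) ?_ ?_
    · intro e he
      exact hcon e (by simpa using he)
    · intro e _ e' _ he
      have := Encodable.encode_injective he
      exact (Prod.mk.inj this).2
  have h2 := Forb_card l u (i := i) (j := j) hB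
  rw [Finset.card_range] at h1
  omega

open Classical in
/-- the choice of player `i` for block `j` -/
noncomputable def pickN (i j : ℕ) (B : Finset ℕ) : ℕ :=
  if h : B.card ≤ u then enc (Qp l u i j B, (exists_free l u (i := i) (j := j) h).choose) else 0

lemma Qp_sub {i j : ℕ} (hi : i < l) (hj : j < l) (B : Finset ℕ) :
    Qp l u i j B ⊆ Finset.range l ×ˢ (Finset.range l ×ˢ JJ l u j) := by
  intro q hq
  unfold Qp at hq
  rw [Finset.mem_union] at hq
  rcases hq with hq | hq
  · split_ifs at hq with hij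
    · rw [Finset.mem_image] at hq
      obtain ⟨t, ht, rfl⟩ := hq
      rw [Finset.mem_inter] at ht
      simp only [Finset.mem_product, Finset.mem_range]
      exact ⟨hi, by omega, JJ_mono l u hij ht.2⟩
    · simp at hq
  · rw [Finset.mem_biUnion] at hq
    obtain ⟨⟨a, r⟩, har, hq⟩ := hq
    simp only [Finset.mem_product, Finset.mem_range] at har
    split_ifs at hq with hr
    · rw [Finset.mem_image] at hq
      obtain ⟨t, ht, rfl⟩ := hq
      rw [Finset.mem_inter] at ht
      simp only [Finset.mem_product, Finset.mem_range]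
      exact ⟨by omega, hr, JJ_mono l u (by omega) ht.2⟩
    · simp at hq

lemma pickN_mem {i j : ℕ} (hi : i < l) (hj : j < l) {B : Finset ℕ} (hB : B.card ≤ u) :
    pickN l u i j B ∈ JJ l u (j + 1) := by
  unfold pickN
  rw [dif_pos hB, JJ, Finset.mem_union]
  right
  rw [Finset.mem_image]
  refine ⟨(Qp l u i j B, (exists_free l u (i := i) (j := j) hB).choose), ?_, rfl⟩
  rw [Finset.mem_product, Finset.mem_powerset, Finset.mem_range]
  exact ⟨Qp_sub l u hi hj B, (exists_free l u (i := i) (j := j) hB).choose_spec.1⟩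

lemma pickN_forb {i j : ℕ} {B : Finset ℕ} (hB : B.card ≤ u) :
    pickN l u i j B ∉ Forb l u i j B := by
  unfold pickN
  rw [dif_pos hB]
  exact (exists_free l u (i := i) (j := j) hB).choose_spec.2

lemma ent_first {i j : ℕ} (hij : i < j) (B : Finset ℕ) :
    ent (Qp l u i j B) i 0 = B ∩ JJ l u (i + 1) := by
  ext t
  rw [mem_ent]
  unfold Qp
  rw [Finset.mem_union, if_pos hij]
  constructor
  · rintro (h | h)
    · rw [Finset.mem_image] at h
      obtain ⟨t', ht', he⟩ := h
      have : t' = t := (Prod.mk.inj (Prod.mk.inj he).2).2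
      rwa [← this]
    · exfalso
      rw [Finset.mem_biUnion] at h
      obtain ⟨⟨a, r⟩, har, hq⟩ := h
      simp only [Finset.mem_product, Finset.mem_range] at har
      split_ifs at hq with hr
      · rw [Finset.mem_image] at hq
        obtain ⟨t', -, he⟩ := hq
        have h1 := (Prod.mk.inj he).1
        simp only at h1
        omega
      · simp at hq
  · intro h
    left
    exact Finset.mem_image.2 ⟨t, h, rfl⟩

lemma ent_next {i j a r : ℕ} (hai : a < i) (haj : a < j) (hr : r + 1 < l) (B : Finset ℕ) :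
    ent (Qp l u i j B) a (r + 1) =
      (((B ∩ JJ l u (i + 1)).biUnion fun t => Uset u t a r) ∩ JJ l u (a + 1)) := by
  ext t
  rw [mem_ent]
  unfold Qp
  rw [Finset.mem_union]
  constructor
  · rintro (h | h)
    · exfalso
      split_ifs at h with hij
      · rw [Finset.mem_image] at h
        obtain ⟨t', -, he⟩ := h
        have h1 := (Prod.mk.inj (Prod.mk.inj he).2).1
        omega
      · simp at h
    · rw [Finset.mem_biUnion] at h
      obtain ⟨⟨a', r'⟩, har, hq⟩ := h
      split_ifs at hq with hr'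
      · rw [Finset.mem_image] at hq
        obtain ⟨t', ht', he⟩ := hq
        have h1 := (Prod.mk.inj he).1
        have h2 := (Prod.mk.inj (Prod.mk.inj he).2).1
        have h3 := (Prod.mk.inj (Prod.mk.inj he).2).2
        simp only at h1 h2 h3
        have h4 : r' = r := by omega
        subst h1 h3 h4
        exact ht'
      · simp at hq
  · intro h
    right
    rw [Finset.mem_biUnion]
    refine ⟨(a, r), ?_, ?_⟩
    · simp only [Finset.mem_product, Finset.mem_range]
      omega
    · rw [if_pos hr]
      exact Finset.mem_image.2 ⟨t, h, rfl⟩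

/-- the sink lemma over the natural numbers -/
theorem sinkN (hl : 0 < l) (B : Fin l → Finset ℕ) (hB : ∀ i, (B i).card ≤ u) :
    ∃ i : Fin l, ∀ j : Fin l, j ≠ i → pickN l u i j (B i) ∉ B j := by
  classical
  by_contra hcon
  push Not at hcon
  choose σ hσ1 hσ2 using hcon
  obtain ⟨a, m, hm0, hml, hma, hmin⟩ := exists_cycle hl σ
  have hm2 : 2 ≤ m := by
    by_contra h
    have : m = 1 := by omega
    subst this
    exact hσ1 a hma
  -- one step
  have hstep : ∀ s, pickN l u (σ^[s] a) (σ^[s + 1] a) (B (σ^[s] a)) ∈ B (σ^[s + 1] a) := by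
    intro s
    have := hσ2 (σ^[s] a)
    rwa [← Function.iterate_succ_apply' σ s a] at this
  have claim : ∀ s, s + 1 < m → ∃ t, t ∈ B (σ^[s + 1] a) ∩ JJ l u ((σ^[s + 1] a : Fin l) + 1) ∧
      B a ∩ JJ l u ((a : ℕ) + 1) ⊆ Uset u t a s := by
    intro s
    induction s with
    | zero =>
      intro hs
      have hlt : (a : ℕ) < (σ^[0 + 1] a : Fin l) := hmin 1 one_pos (by omega)
      refine ⟨pickN l u a (σ^[0 + 1] a) (B a), ?_, ?_⟩
      · rw [Finset.mem_inter]
        exact ⟨hstep 0, pickN_mem l u a.2 (Fin.is_lt _) (hB a)⟩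
      · unfold pickN
        rw [dif_pos (hB a), Uset_enc]
        · rw [ent_first l u hlt]
        · simp only
          rw [ent_first l u hlt]
          refine le_trans (Finset.card_le_card Finset.inter_subset_left) ?_
          simpa using hB a
    | succ s ih =>
      intro hs
      obtain ⟨t, ht1, ht2⟩ := ih (by omega)
      have hlt1 : (a : ℕ) < (σ^[s + 1] a : Fin l) := hmin (s + 1) (by omega) (by omega)
      have hlt2 : (a : ℕ) < (σ^[s + 1 + 1] a : Fin l) := hmin (s + 2) (by omega) hs
      refine ⟨pickN l u (σ^[s + 1] a) (σ^[s + 1 + 1] a) (B (σ^[s + 1] a)), ?_, ?_⟩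
      · rw [Finset.mem_inter]
        exact ⟨hstep (s + 1), pickN_mem l u (Fin.is_lt _) (Fin.is_lt _) (hB _)⟩
      · unfold pickN
        rw [dif_pos (hB _), Uset_enc]
        · simp only
          rw [ent_next l u hlt1 hlt2 (by omega)]
          intro x hx
          rw [Finset.mem_inter]
          refine ⟨?_, (Finset.mem_inter.1 hx).2⟩
          rw [Finset.mem_biUnion]
          exact ⟨t, ht1, ht2 hx⟩
        · simp only
          rw [ent_next l u hlt1 hlt2 (by omega)]
          refine le_trans (Finset.card_le_card Finset.inter_subset_left) ?_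
          have h1 := Finset.card_biUnion_le_card_mul
            (B (σ^[s + 1] a) ∩ JJ l u ((σ^[s + 1] a : Fin l) + 1))
            (fun t => Uset u t a s) (u ^ (s + 1)) (fun t _ => Uset_card u t a s)
          refine le_trans h1 ?_
          have h2 : (B (σ^[s + 1] a) ∩ JJ l u ((σ^[s + 1] a : Fin l) + 1)).card ≤ u :=
            le_trans (Finset.card_le_card Finset.inter_subset_left) (hB _)
          calc _ ≤ u * u ^ (s + 1) := Nat.mul_le_mul_right _ h2
            _ = u ^ (s + 1 + 1) := by ring
  obtain ⟨t, ht1, ht2⟩ := claim (m - 2) (by omega)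
  have e1 : m - 2 + 1 = m - 1 := by omega
  rw [e1] at ht1
  have hlast := hstep (m - 1)
  have e2 : m - 1 + 1 = m := by omega
  rw [e2, hma] at hlast
  have hnot := pickN_forb l u (i := (σ^[m - 1] a : Fin l)) (j := (a : ℕ)) (hB (σ^[m - 1] a))
  apply hnot
  unfold Forb
  rw [Finset.mem_biUnion]
  refine ⟨t, ht1, ?_⟩
  rw [Finset.mem_biUnion]
  refine ⟨m - 2, by rw [Finset.mem_range]; omega, ?_⟩
  apply ht2
  rw [Finset.mem_inter]
  exact ⟨hlast, pickN_mem l u (Fin.is_lt _) a.2 (hB _)⟩

end messages

/-- the sink lemma: players `i : Fin l`, positions in a large finite type -/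
theorem sink (l u : ℕ) (hl : 0 < l) : ∃ s0 : ℕ, ∀ (T : Type) [Fintype T] [DecidableEq T],
    s0 ≤ Fintype.card T → ∃ pick : Fin l → Fin l → Finset T → T,
      ∀ B : Fin l → Finset T, (∀ i, (B i).card ≤ u) →
        ∃ i : Fin l, ∀ j : Fin l, j ≠ i → pick i j (B i) ∉ B j := by
  classical
  refine ⟨(JJ l u l).sup id + 1, ?_⟩
  intro T _ _ hT
  have hcard : Fintype.card (Fin ((JJ l u l).sup id + 1)) ≤ Fintype.card T := by simpa using hT
  obtain ⟨J⟩ := Function.Embedding.nonempty_of_card_le hcard
  let K : ℕ → T := fun t => if h : t < (JJ l u l).sup id + 1 then J ⟨t, h⟩ else J ⟨0, by omega⟩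
  have hK : ∀ t t', t ∈ Finset.range ((JJ l u l).sup id + 1) →
      t' ∈ Finset.range ((JJ l u l).sup id + 1) → K t = K t' → t = t' := by
    intro t t' ht ht' he
    rw [Finset.mem_range] at ht ht'
    simp only [K, dif_pos ht, dif_pos ht'] at he
    exact congrArg Fin.val (J.injective he)
  let pre : Finset T → Finset ℕ := fun B =>
    (Finset.range ((JJ l u l).sup id + 1)).filter fun t => K t ∈ B
  have hpre : ∀ B : Finset T, (pre B).card ≤ B.card := by
    intro B
    refine Finset.card_le_card_of_injOn K ?_ ?_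
    · intro t ht
      exact (Finset.mem_filter.1 ht).2
    · intro t ht t' ht' he
      exact hK t t' (Finset.mem_filter.1 ht).1 (Finset.mem_filter.1 ht').1 he
  refine ⟨fun i j B => K (pickN l u i j (pre B)), ?_⟩
  intro B hB
  obtain ⟨i, hi⟩ := sinkN l u hl (fun i => pre (B i)) (fun i => le_trans (hpre _) (hB i))
  refine ⟨i, fun j hj hmem => hi j hj ?_⟩
  simp only [pre]
  rw [Finset.mem_filter]
  refine ⟨?_, hmem⟩
  have h1 : pickN l u i j (pre (B i)) ∈ JJ l u (j + 1) :=
    pickN_mem l u i.2 j.2 (le_trans (hpre _) (hB i))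
  have h2 : pickN l u i j (pre (B i)) ∈ JJ l u l := JJ_mono l u j.2 h1
  rw [Finset.mem_range]
  have h3 := Finset.le_sup (f := id) h2
  simp only [id] at h3
  exact Nat.lt_succ_of_le h3

end Pool.Agent.R729.KP
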