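import Mathlib
import Pool.Agent.R729.KP.AsmK
import Pool.Agent.R729.KP.Sink

namespace Pool.Agent.R729.KP

open Finset

section kcore

variable {l b k : ℕ} {F : Type} [Fintype F] [DecidableEq F]

/-- positions at which two different values from `R` agree -/
def BS (ev : F → Fin b → F) (R : Finset (Fin b)) : Finset F :=
  univ.filter fun t => ∃ a ∈ R, ∃ a' ∈ R, a ≠ a' ∧ ev t a = ev t a'

lemma BS_card {ev : F → Fin b → F} {h : ℕ}
    (hev : ∀ a a' : Fin b, a ≠ a' → (univ.filter fun t => ev t a = ev t a').card ≤ h)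
    (R : Finset (Fin b)) : (BS ev R).card ≤ R.card * (R.card * h) := by
  classical
  have h1 : BS ev R ⊆ R.biUnion fun a => R.biUnion fun a' =>
      if a ≠ a' then univ.filter (fun t => ev t a = ev t a') else ∅ := by
    intro t ht
    simp only [BS, mem_filter, mem_univ, true_and] at ht
    obtain ⟨a, ha, a', ha', hne, he⟩ := ht
    rw [mem_biUnion]
    refine ⟨a, ha, ?_⟩
    rw [mem_biUnion]
    refine ⟨a', ha', ?_⟩
    rw [if_pos hne]
    simpa using he
  refine le_trans (Finset.card_le_card h1) ?_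
  apply Finset.card_biUnion_le_card_mul
  intro a _
  apply Finset.card_biUnion_le_card_mul
  intro a' _
  split_ifs with hne
  · exact hev a a' hne
  · simp

/-- the digits of `x` at the positions `t` -/
def dv (ev : F → Fin b → F) (t : Fin l → F) (x : Fin l → Fin b) : Fin l → F :=
  fun j => ev (t j) (x j)

/-- the positions chosen by player `i` -/
def tv (ev : F → Fin b → F) (pick : Fin l → Fin l → Finset F → F) (i : Fin l)
    (R : Finset (Fin b)) : Fin l → F := fun j => pick i j (BS ev R)

/-- labels of the first kind: a coordinate and a set of values -/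
abbrev LA (l b : ℕ) : Type := Fin l × Finset (Fin b)

/-- labels of the second kind: a coordinate, positions, and descriptors of the parts -/
abbrev LB (l b : ℕ) (F : Type) : Type :=
  Fin l × (Fin l → F) × Finset (Option (Fin b) × (Fin l → F))

/-- labelling of the first kind -/
def fA (i : Fin l) (K : Finset (Fin b)) (x : Fin l → Fin b) : Option (Fin b ⊕ Fin 2) :=
  if x i ∈ K then some (Sum.inl (x i)) else
    if ∀ a ∈ K, x i < a then some (Sum.inr 0) else
      if ∀ a ∈ K, a < x i then some (Sum.inr 1) else none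

/-- the labels used by a member of the first kind -/
def DA (K : Finset (Fin b)) : Finset (Fin b ⊕ Fin 2) :=
  K.image Sum.inl ∪ {Sum.inr 0, Sum.inr 1}

lemma DA_card (K : Finset (Fin b)) : (DA K).card = K.card + 2 := by
  unfold DA
  rw [Finset.card_union_of_disjoint, Finset.card_image_of_injective _ Sum.inl_injective]
  · congr 1
  · rw [Finset.disjoint_left]
    intro d hd hd'
    rw [mem_image] at hd
    obtain ⟨a, -, rfl⟩ := hd
    simp at hd'

/-- values occurring in a set of descriptors -/
def KK (D : Finset (Option (Fin b) × (Fin l → F))) : Finset (Fin b) :=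
  univ.filter fun a => ∃ w, (some a, w) ∈ D

lemma mem_KK {D : Finset (Option (Fin b) × (Fin l → F))} {a : Fin b} :
    a ∈ KK D ↔ ∃ w, (some a, w) ∈ D := by
  simp [KK]

open Classical in
/-- labelling of the second kind -/
noncomputable def fB (ev : F → Fin b → F) (pick : Fin l → Fin l → Finset F → F) (i : Fin l)
    (t : Fin l → F) (D : Finset (Option (Fin b) × (Fin l → F))) (x : Fin l → Fin b) :
    Option (Option (Fin b) × (Fin l → F)) :=
  if x i ∈ KK D then some (some (x i), dv ev t x) else
    if t = tv ev pick i (insert (x i) (KK D)) ∧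
      ∀ a ∈ KK D, (∀ w w', (some a, w) ∈ D → (some a, w') ∈ D → w = w') → a < x i
    then some (none, dv ev t x) else none

/-- valid labels of the second kind -/
def validB (ev : F → Fin b → F) (pick : Fin l → Fin l → Finset F → F) (k : ℕ)
    (q : LB l b F) : Prop :=
  q.2.2.card = k ∧
    (((∀ w, (none, w) ∉ q.2.2) ∧ (KK q.2.2).card ≤ k - 2 ∧ q.2.1 = tv ev pick q.1 (KK q.2.2)) ∨
     ((∃ w0, (none, w0) ∈ q.2.2 ∧ ∀ w, (none, w) ∈ q.2.2 → w = w0) ∧
       (KK q.2.2).card = k - 2))

variable {ev : F → Fin b → F} {pick : Fin l → Fin l → Finset F → F}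

/-- the values at coordinate `i` -/
def vals (i : Fin l) (e : Finset (Fin l → Fin b)) : Finset (Fin b) := e.image fun x => x i

lemma mem_vals {i : Fin l} {e : Finset (Fin l → Fin b)} {a : Fin b} :
    a ∈ vals i e ↔ ∃ x ∈ e, x i = a := by
  simp [vals]

/-- a member of the first kind covers only sets with different values -/
lemma A_vals {i : Fin l} {K : Finset (Fin b)} {e : Finset (Fin l → Fin b)}
    (h : CovD (fA i K) (DA K) e) : (vals i e).card = e.card := by
  unfold vals
  apply Finset.card_image_of_injOn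
  intro x hx y hy hxy
  apply h.2 hx hy
  simp only at hxy
  unfold fA
  rw [hxy]

lemma A_mem {i : Fin l} {K : Finset (Fin b)} {e : Finset (Fin l → Fin b)}
    (hK : K.Nonempty) (h : CovD (fA i K) (DA K) e) (a : Fin b) :
    a ∈ K ↔ a ∈ vals i e ∧ (∃ a1 ∈ vals i e, a1 < a) ∧ (∃ a2 ∈ vals i e, a < a2) := by
  obtain ⟨h1, h2⟩ := h
  have hsome : ∀ d ∈ DA K, ∃ x ∈ e, fA i K x = some d := by
    intro d hd
    have : some d ∈ e.image (fA i K) := by
      rw [h1]; exact mem_image_of_mem _ hd
    simpa using this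
  have hin : ∀ x ∈ e, ∃ d ∈ DA K, fA i K x = some d := by
    intro x hx
    have : fA i K x ∈ (DA K).image some := by
      rw [← h1]; exact mem_image_of_mem _ hx
    rw [mem_image] at this
    obtain ⟨d, hd, hdx⟩ := this
    exact ⟨d, hd, hdx.symm⟩
  have hlow : ∀ x, x i ∉ K → (∀ a ∈ K, x i < a) → fA i K x = some (Sum.inr 0) := by
    intro x hx1 hx2
    unfold fA
    rw [if_neg hx1, if_pos hx2]
  have hhigh : ∀ x, x i ∉ K → (∀ a ∈ K, a < x i) → fA i K x = some (Sum.inr 1) := by
    intro x hx1 hx2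
    unfold fA
    rw [if_neg hx1, if_neg, if_pos hx2]
    intro h3
    obtain ⟨a, ha⟩ := hK
    exact absurd (h3 a ha) (not_lt_of_gt (hx2 a ha))
  constructor
  · intro ha
    obtain ⟨x0, hx0, hf0⟩ := hsome (Sum.inr 0) (by simp [DA])
    obtain ⟨x1, hx1, hf1⟩ := hsome (Sum.inr 1) (by simp [DA])
    obtain ⟨x, hx, hf⟩ := hsome (Sum.inl a) (by simp [DA, ha])
    refine ⟨?_, ?_, ?_⟩
    · rw [mem_vals]
      refine ⟨x, hx, ?_⟩
      unfold fA at hf
      split_ifs at hf with g1 g2 g3
      · simpa using hf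
      · simp at hf
      · simp at hf
    · refine ⟨x0 i, mem_vals.2 ⟨x0, hx0, rfl⟩, ?_⟩
      unfold fA at hf0
      split_ifs at hf0 with g1 g2 g3
      · simp at hf0
      · exact g2 a ha
      · simp at hf0
    · refine ⟨x1 i, mem_vals.2 ⟨x1, hx1, rfl⟩, ?_⟩
      unfold fA at hf1
      split_ifs at hf1 with g1 g2 g3
      · simp at hf1
      · simp at hf1
      · exact g3 a ha
  · rintro ⟨ha, ⟨a1, ha1, hlt1⟩, ⟨a2, ha2, hlt2⟩⟩
    rw [mem_vals] at ha ha1 ha2
    obtain ⟨x, hx, rfl⟩ := ha
    obtain ⟨y, hy, rfl⟩ := ha1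
    obtain ⟨z, hz, rfl⟩ := ha2
    by_contra hxK
    obtain ⟨d, hd, hfd⟩ := hin x hx
    by_cases g1 : ∀ a ∈ K, x i < a
    · have hyK : y i ∉ K := fun hyK => absurd (g1 _ hyK) (not_lt_of_gt hlt1)
      have e1 := hlow x hxK g1
      have e2 := hlow y hyK (fun a ha => lt_trans hlt1 (g1 a ha))
      have := h2 hx hy (e1.trans e2.symm)
      rw [this] at hlt1
      exact lt_irrefl _ hlt1
    · by_cases g2 : ∀ a ∈ K, a < x i
      · have hzK : z i ∉ K := fun hzK => absurd (g2 _ hzK) (not_lt_of_gt hlt2)
        have e1 := hhigh x hxK g2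
        have e2 := hhigh z hzK (fun a ha => lt_trans (g2 a ha) hlt2)
        have := h2 hx hz (e1.trans e2.symm)
        rw [this] at hlt2
        exact lt_irrefl _ hlt2
      · unfold fA at hfd
        rw [if_neg hxK, if_neg g1, if_neg g2] at hfd
        exact absurd hfd (by simp)

lemma fB_some {i : Fin l} {t : Fin l → F} {D : Finset (Option (Fin b) × (Fin l → F))}
    {x : Fin l → Fin b} {a : Fin b} {w : Fin l → F}
    (h : fB ev pick i t D x = some (some a, w)) : x i = a ∧ a ∈ KK D ∧ dv ev t x = w := by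
  unfold fB at h
  split_ifs at h with g1 g2
  · rw [Option.some_inj, Prod.mk.injEq, Option.some_inj] at h
    exact ⟨h.1, h.1 ▸ g1, h.2⟩
  · rw [Option.some_inj, Prod.mk.injEq] at h
    exact absurd h.1 (by simp)

lemma fB_none {i : Fin l} {t : Fin l → F} {D : Finset (Option (Fin b) × (Fin l → F))}
    {x : Fin l → Fin b} {w : Fin l → F}
    (h : fB ev pick i t D x = some (none, w)) : x i ∉ KK D ∧ dv ev t x = w ∧
      t = tv ev pick i (insert (x i) (KK D)) ∧
      ∀ a ∈ KK D, (∀ w w', (some a, w) ∈ D → (some a, w') ∈ D → w = w') → a < x i := by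
  unfold fB at h
  split_ifs at h with g1 g2
  · rw [Option.some_inj, Prod.mk.injEq] at h
    exact absurd h.1 (by simp)
  · rw [Option.some_inj, Prod.mk.injEq] at h
    exact ⟨g1, h.2, g2.1, g2.2⟩

lemma fB_eq {i : Fin l} {t : Fin l → F} {D : Finset (Option (Fin b) × (Fin l → F))}
    {e : Finset (Fin l → Fin b)} (h : CovD (fB ev pick i t D) D e) {x : Fin l → Fin b}
    (hx : x ∈ e) :
    fB ev pick i t D x = some (if x i ∈ KK D then some (x i) else none, dv ev t x) := by
  classical
  have : fB ev pick i t D x ∈ D.image some := by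
    rw [← h.1]; exact mem_image_of_mem _ hx
  rw [mem_image] at this
  obtain ⟨d, hd, hdx⟩ := this
  have hdx' := hdx.symm
  rcases d with ⟨_ | a, w⟩
  · obtain ⟨g1, g2, -, -⟩ := fB_none hdx'
    rw [if_neg g1, g2, hdx']
  · obtain ⟨g1, g2, g3⟩ := fB_some hdx'
    rw [if_pos (g1 ▸ g2), g1, g3, hdx']

lemma fB_surj {i : Fin l} {t : Fin l → F} {D : Finset (Option (Fin b) × (Fin l → F))}
    {e : Finset (Fin l → Fin b)} (h : CovD (fB ev pick i t D) D e)
    {d : Option (Fin b) × (Fin l → F)} (hd : d ∈ D) : ∃ x ∈ e, fB ev pick i t D x = some d := by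
  have : some d ∈ e.image (fB ev pick i t D) := by
    rw [h.1]; exact mem_image_of_mem _ hd
  simpa using this

lemma KK_sub {i : Fin l} {t : Fin l → F} {D : Finset (Option (Fin b) × (Fin l → F))}
    {e : Finset (Fin l → Fin b)} (h : CovD (fB ev pick i t D) D e) : KK D ⊆ vals i e := by
  intro a ha
  rw [mem_KK] at ha
  obtain ⟨w, hw⟩ := ha
  obtain ⟨x, hx, hf⟩ := fB_surj h hw
  exact mem_vals.2 ⟨x, hx, (fB_some hf).1⟩

/-- the set of descriptors is determined by the values and the positions -/
lemma D_eq {i : Fin l} {t : Fin l → F} {D D' : Finset (Option (Fin b) × (Fin l → F))}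
    {e : Finset (Fin l → Fin b)} (h : CovD (fB ev pick i t D) D e)
    (h' : CovD (fB ev pick i t D') D' e) (hK : KK D = KK D') : D = D' := by
  apply Finset.image_injective (Option.some_injective _)
  rw [← h.1, ← h'.1]
  apply Finset.image_congr
  intro x hx
  rw [fB_eq h hx, fB_eq h' hx, hK]

/-- structure of a set covered by a member of the second kind -/
lemma B_cases (hk : 3 ≤ k) {q : LB l b F} (hv : validB ev pick k q)
    {e : Finset (Fin l → Fin b)} (h : CovD (fB ev pick q.1 q.2.1 q.2.2) q.2.2 e) :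
    (KK q.2.2 = vals q.1 e ∧ (vals q.1 e).card ≤ k - 2 ∧
      q.2.1 = tv ev pick q.1 (vals q.1 e)) ∨
    (∃ z ∈ e, z q.1 ∉ KK q.2.2 ∧ vals q.1 e = insert (z q.1) (KK q.2.2) ∧
      (vals q.1 e).card = k - 1 ∧ q.2.1 = tv ev pick q.1 (vals q.1 e) ∧
      (∀ x ∈ e, x q.1 = z q.1 → x = z) ∧
      ∀ a ∈ KK q.2.2, (∀ w w', (some a, w) ∈ q.2.2 → (some a, w') ∈ q.2.2 → w = w') →
        a < z q.1) := by
  classical
  obtain ⟨hcard, hB | hC⟩ := hv
  · left
    obtain ⟨h1, h2, h3⟩ := hB
    have h4 : KK q.2.2 = vals q.1 e := by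
      apply Finset.Subset.antisymm (KK_sub h)
      intro a ha
      rw [mem_vals] at ha
      obtain ⟨x, hx, rfl⟩ := ha
      by_contra hxK
      have h5 := fB_eq h hx
      rw [if_neg hxK] at h5
      have h6 : some ((none : Option (Fin b)), dv ev q.2.1 x) ∈ q.2.2.image some := by
        rw [← h.1, ← h5]
        exact mem_image_of_mem _ hx
      simp only [mem_image, Option.some_inj, exists_eq_right] at h6
      exact h1 _ h6
    rw [← h4]
    exact ⟨rfl, h2, h3⟩
  · right
    obtain ⟨⟨w0, hw0, hw1⟩, h2⟩ := hC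
    obtain ⟨z, hz, hfz⟩ := fB_surj h hw0
    obtain ⟨g1, g2, g3, g4⟩ := fB_none hfz
    have huniq : ∀ x ∈ e, x q.1 ∉ KK q.2.2 → x = z := by
      intro x hx hxK
      have h5 := fB_eq h hx
      rw [if_neg hxK] at h5
      have h6 : some ((none : Option (Fin b)), dv ev q.2.1 x) ∈ q.2.2.image some := by
        rw [← h.1, ← h5]
        exact mem_image_of_mem _ hx
      simp only [mem_image, Option.some_inj, exists_eq_right] at h6
      have h7 := hw1 _ h6
      apply h.2 hx hz
      rw [h5, hfz, h7]
    have h8 : vals q.1 e = insert (z q.1) (KK q.2.2) := by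
      apply Finset.Subset.antisymm
      · intro a ha
        rw [mem_vals] at ha
        obtain ⟨x, hx, rfl⟩ := ha
        rw [mem_insert]
        by_cases hxK : x q.1 ∈ KK q.2.2
        · exact Or.inr hxK
        · left
          rw [huniq x hx hxK]
      · intro a ha
        rw [mem_insert] at ha
        rcases ha with rfl | ha
        · exact mem_vals.2 ⟨z, hz, rfl⟩
        · exact KK_sub h ha
    refine ⟨z, hz, g1, h8, ?_, ?_, ?_, g4⟩
    · rw [h8, Finset.card_insert_of_notMem g1, h2]
      omega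
    · rw [h8]
      exact g3
    · intro x hx hxz
      apply huniq x hx
      rw [hxz]
      exact g1

/-- at most one member of the second kind for each coordinate covers a given set -/
lemma B_inj (hk : 3 ≤ k) {q q' : LB l b F} (hv : validB ev pick k q)
    (hv' : validB ev pick k q') {e : Finset (Fin l → Fin b)}
    (h : CovD (fB ev pick q.1 q.2.1 q.2.2) q.2.2 e)
    (h' : CovD (fB ev pick q'.1 q'.2.1 q'.2.2) q'.2.2 e) (hi : q.1 = q'.1) : q = q' := by
  classical
  obtain ⟨i, t, D⟩ := q
  obtain ⟨i', t', D'⟩ := q'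
  simp only at hi
  subst hi
  have c := B_cases hk hv h
  have c' := B_cases hk hv' h'
  simp only at c c' h h'
  have hkey : t = t' ∧ KK D = KK D' := by
    rcases c with ⟨c1, c2, c3⟩ | ⟨z, hz, c1, c2, c3, c4, c5, c6⟩ <;>
      rcases c' with ⟨d1, d2, d3⟩ | ⟨z', hz', d1, d2, d3, d4, d5, d6⟩
    · exact ⟨c3.trans d3.symm, c1.trans d1.symm⟩
    · exfalso; omega
    · exfalso; omega
    · refine ⟨c4.trans d4.symm, ?_⟩
      have hzz : z i = z' i := by
        by_contra hne
        have m1 : z i ∈ KK D' := by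
          have : z i ∈ vals i e := mem_vals.2 ⟨z, hz, rfl⟩
          rw [d2, mem_insert] at this
          exact this.resolve_left hne
        have m2 : z' i ∈ KK D := by
          have : z' i ∈ vals i e := mem_vals.2 ⟨z', hz', rfl⟩
          rw [c2, mem_insert] at this
          exact this.resolve_left (Ne.symm hne)
        have l1 : z i < z' i := by
          apply d6 _ m1
          intro w w' hw hw'
          obtain ⟨x, hx, hfx⟩ := fB_surj h' hw
          obtain ⟨y, hy, hfy⟩ := fB_surj h' hw'
          obtain ⟨x1, -, x3⟩ := fB_some hfx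
          obtain ⟨y1, -, y3⟩ := fB_some hfy
          rw [← x3, ← y3, c5 x hx x1, c5 y hy y1]
        have l2 : z' i < z i := by
          apply c6 _ m2
          intro w w' hw hw'
          obtain ⟨x, hx, hfx⟩ := fB_surj h hw
          obtain ⟨y, hy, hfy⟩ := fB_surj h hw'
          obtain ⟨x1, -, x3⟩ := fB_some hfx
          obtain ⟨y1, -, y3⟩ := fB_some hfy
          rw [← x3, ← y3, d5 x hx x1, d5 y hy y1]
        exact lt_asymm l1 l2
      have e1 : (vals i e).erase (z i) = KK D := by
        rw [c2, Finset.erase_insert c1]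
      have e2 : (vals i e).erase (z' i) = KK D' := by
        rw [d2, Finset.erase_insert d1]
      rw [← e1, ← e2, hzz]
  obtain ⟨ht, hK⟩ := hkey
  subst ht
  rw [D_eq h h' hK]

/-- members of different kinds and the same coordinate do not cover the same set -/
lemma AB_disj (hk : 3 ≤ k) {K : Finset (Fin b)} {q : LB l b F}
    (hv : validB ev pick k q) {e : Finset (Fin l → Fin b)} (he : e.card = k)
    (hA : CovD (fA q.1 K) (DA K) e)
    (h : CovD (fB ev pick q.1 q.2.1 q.2.2) q.2.2 e) : False := by
  have h1 := A_vals hA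
  rcases B_cases hk hv h with ⟨-, h2, -⟩ | ⟨z, -, -, -, h3, -⟩
  · omega
  · omega

end kcore

end Pool.Agent.R729.KP
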