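import Mathlib
import Pool.Agent.R729.KP.KCore

namespace Pool.Agent.R729.KP

open Finset

section kexist

variable {l b k : ℕ} {F : Type} [Fintype F] [DecidableEq F]
variable {ev : F → Fin b → F} {pick : Fin l → Fin l → Finset F → F}

lemma vals_inj {i : Fin l} {e : Finset (Fin l → Fin b)} (h : (vals i e).card = e.card)
    {x y : Fin l → Fin b} (hx : x ∈ e) (hy : y ∈ e) (hxy : x i = y i) : x = y := by
  have : Set.InjOn (fun x : Fin l → Fin b => x i) e := Finset.card_image_iff.1 h
  exact this hx hy hxy

lemma exists_A (hk : 3 ≤ k) {i : Fin l} {e : Finset (Fin l → Fin b)} (he : e.card = k)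
    (h : (vals i e).card = k) :
    ∃ K : Finset (Fin b), K.card = k - 2 ∧ CovD (fA i K) (DA K) e := by
  classical
  have hne : (vals i e).Nonempty := by
    rw [← Finset.card_pos]; omega
  set mn := (vals i e).min' hne with hmn
  set mx := (vals i e).max' hne with hmx
  have hmnm : mn ∈ vals i e := Finset.min'_mem _ _
  have hmxm : mx ∈ vals i e := Finset.max'_mem _ _
  have hlt : mn < mx := by
    apply Finset.min'_lt_max'_of_card
    omega
  set K := ((vals i e).erase mn).erase mx with hK
  have hKc : K.card = k - 2 := by
    rw [hK, Finset.card_erase_of_mem, Finset.card_erase_of_mem hmnm, h]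
    · omega
    · rw [mem_erase]
      exact ⟨hlt.ne', hmxm⟩
  have hKne : K.Nonempty := by
    rw [← Finset.card_pos]; omega
  have hKmem : ∀ a, a ∈ K ↔ a ≠ mx ∧ a ≠ mn ∧ a ∈ vals i e := by
    intro a
    rw [hK, mem_erase, mem_erase]
  have hKlo : ∀ a ∈ K, mn < a := by
    intro a ha
    rw [hKmem] at ha
    exact lt_of_le_of_ne (Finset.min'_le _ _ ha.2.2) (Ne.symm ha.2.1)
  have hKhi : ∀ a ∈ K, a < mx := by
    intro a ha
    rw [hKmem] at ha
    exact lt_of_le_of_ne (Finset.le_max' _ _ ha.2.2) ha.1
  have hf1 : ∀ x : Fin l → Fin b, x i ∈ K → fA i K x = some (Sum.inl (x i)) := by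
    intro x hx
    unfold fA
    rw [if_pos hx]
  have hf2 : ∀ x : Fin l → Fin b, x i = mn → fA i K x = some (Sum.inr 0) := by
    intro x hx
    unfold fA
    rw [if_neg, if_pos]
    · rw [hx]; exact hKlo
    · rw [hx]
      intro hmem
      exact lt_irrefl _ (hKlo _ hmem)
  have hf3 : ∀ x : Fin l → Fin b, x i = mx → fA i K x = some (Sum.inr 1) := by
    intro x hx
    unfold fA
    rw [if_neg, if_neg, if_pos]
    · rw [hx]; exact hKhi
    · rw [hx]
      intro hall
      obtain ⟨a, ha⟩ := hKne
      exact lt_asymm (hall a ha) (hKhi a ha)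
    · rw [hx]
      intro hmem
      exact lt_irrefl _ (hKhi _ hmem)
  have hcase : ∀ x ∈ e, x i ∈ K ∨ x i = mn ∨ x i = mx := by
    intro x hx
    by_cases h1 : x i = mx
    · exact Or.inr (Or.inr h1)
    · by_cases h2 : x i = mn
      · exact Or.inr (Or.inl h2)
      · left
        rw [hKmem]
        exact ⟨h1, h2, mem_vals.2 ⟨x, hx, rfl⟩⟩
  refine ⟨K, hKc, ?_, ?_⟩
  · ext o
    simp only [mem_image]
    constructor
    · rintro ⟨x, hx, rfl⟩
      rcases hcase x hx with h1 | h1 | h1
      · exact ⟨Sum.inl (x i), by simp [DA, h1], (hf1 x h1).symm⟩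
      · exact ⟨Sum.inr 0, by simp [DA], (hf2 x h1).symm⟩
      · exact ⟨Sum.inr 1, by simp [DA], (hf3 x h1).symm⟩
    · rintro ⟨d, hd, rfl⟩
      simp only [DA, mem_union, mem_image, mem_insert, mem_singleton] at hd
      rcases hd with ⟨a, ha, rfl⟩ | rfl | rfl
      · obtain ⟨x, hx, hxa⟩ := mem_vals.1 ((hKmem a).1 ha).2.2
        refine ⟨x, hx, ?_⟩
        rw [hf1 x (hxa ▸ ha), hxa]
      · obtain ⟨x, hx, hxa⟩ := mem_vals.1 hmnm
        exact ⟨x, hx, hf2 x hxa⟩
      · obtain ⟨x, hx, hxa⟩ := mem_vals.1 hmxm
        exact ⟨x, hx, hf3 x hxa⟩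
  · intro x hx y hy hxy
    apply vals_inj (h.trans he.symm) hx hy
    rcases hcase x hx with h1 | h1 | h1 <;> rcases hcase y hy with h2 | h2 | h2
    · rw [hf1 x h1, hf1 y h2] at hxy
      simpa using hxy
    · rw [hf1 x h1, hf2 y h2] at hxy
      simp at hxy
    · rw [hf1 x h1, hf3 y h2] at hxy
      simp at hxy
    · rw [hf2 x h1, hf1 y h2] at hxy
      simp at hxy
    · rw [h1, h2]
    · rw [hf2 x h1, hf3 y h2] at hxy
      simp at hxy
    · rw [hf3 x h1, hf1 y h2] at hxy
      simp at hxy
    · rw [hf3 x h1, hf2 y h2] at hxy
      simp at hxy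
    · rw [h1, h2]

/-- good positions separate the points with the same value -/
lemma dv_ne {i : Fin l} {e : Finset (Fin l → Fin b)}
    (hgood : ∀ j, j ≠ i → pick i j (BS ev (vals i e)) ∉ BS ev (vals j e))
    {x y : Fin l → Fin b} (hx : x ∈ e) (hy : y ∈ e) (hne : x ≠ y) (hi : x i = y i) :
    dv ev (tv ev pick i (vals i e)) x ≠ dv ev (tv ev pick i (vals i e)) y := by
  intro he
  obtain ⟨j, hj⟩ := Function.ne_iff.1 hne
  have hji : j ≠ i := by
    rintro rfl
    exact hj hi
  apply hgood j hji
  simp only [BS, mem_filter, mem_univ, true_and]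
  exact ⟨x j, mem_vals.2 ⟨x, hx, rfl⟩, y j, mem_vals.2 ⟨y, hy, rfl⟩, hj, congrFun he j⟩

lemma exists_B (hk : 3 ≤ k) {i : Fin l} {e : Finset (Fin l → Fin b)} (he : e.card = k)
    (hgood : ∀ j, j ≠ i → pick i j (BS ev (vals i e)) ∉ BS ev (vals j e))
    (h : (vals i e).card ≤ k - 1) :
    ∃ q : LB l b F, validB ev pick k q ∧ CovD (fB ev pick q.1 q.2.1 q.2.2) q.2.2 e := by
  classical
  set R := vals i e with hR
  set t := tv ev pick i R with ht
  have hdv : ∀ x ∈ e, ∀ y ∈ e, x ≠ y → x i = y i → dv ev t x ≠ dv ev t y := by
    intro x hx y hy hne hi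
    exact dv_ne hgood hx hy hne hi
  rcases Nat.lt_or_ge (k - 2) R.card with hlt | hle
  · -- exactly `k - 1` values
    have hRc : R.card = k - 1 := by omega
    -- the values with one point
    let M : Fin b → ℕ := fun a => (e.filter fun x => x i = a).card
    let R1 : Finset (Fin b) := R.filter fun a => M a = 1
    have hsum : ∑ a ∈ R, M a = k := by
      rw [← he]
      exact (Finset.card_eq_sum_card_image (fun x : Fin l → Fin b => x i) e).symm
    have hM1 : ∀ a ∈ R, 1 ≤ M a := by
      intro a ha
      obtain ⟨x, hx, hxa⟩ := mem_vals.1 ha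
      exact Finset.card_pos.2 ⟨x, by simp [hx, hxa]⟩
    have hR1 : R1.Nonempty := by
      by_contra hemp
      rw [Finset.not_nonempty_iff_eq_empty] at hemp
      have h2 : ∀ a ∈ R, 2 ≤ M a := by
        intro a ha
        have h1 := hM1 a ha
        have h3 : M a ≠ 1 := by
          intro h4
          have : a ∈ R1 := by simp [R1, ha, h4]
          rw [hemp] at this
          simp at this
        omega
      have h5 : R.card * 2 ≤ ∑ a ∈ R, M a := by
        have := Finset.card_nsmul_le_sum R M 2 h2
        simpa using this
      omega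
    set c := R1.max' hR1 with hc
    have hcm : c ∈ R1 := Finset.max'_mem _ _
    have hcR : c ∈ R := (Finset.mem_filter.1 hcm).1
    have hcM : M c = 1 := (Finset.mem_filter.1 hcm).2
    obtain ⟨z, hz⟩ := Finset.card_eq_one.1 hcM
    have hze : z ∈ e ∧ z i = c := by
      have : z ∈ e.filter fun x => x i = c := by rw [hz]; simp
      simpa using this
    have hzu : ∀ x ∈ e, x i = c → x = z := by
      intro x hx hxc
      have : x ∈ e.filter fun x => x i = c := by simp [hx, hxc]
      rw [hz] at this
      simpa using this
    let g : (Fin l → Fin b) → Option (Fin b) × (Fin l → F) := fun x =>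
      (if x i = c then none else some (x i), dv ev t x)
    have hginj : Set.InjOn g e := by
      intro x hx y hy hxy
      by_contra hne
      have h1 : (if x i = c then none else some (x i)) = (if y i = c then none else some (y i)) :=
        congrArg Prod.fst hxy
      have h2 : dv ev t x = dv ev t y := congrArg Prod.snd hxy
      have h3 : x i = y i := by
        split_ifs at h1 with g1 g2 g2
        · rw [g1, g2]
        · simpa using h1
      exact hdv x hx y hy hne h3 h2
    let D := e.image g
    have hDc : D.card = k := by
      rw [Finset.card_image_of_injOn hginj, he]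
    have hKK : KK D = R.erase c := by
      ext a
      rw [mem_KK, mem_erase]
      constructor
      · rintro ⟨w, hw⟩
        rw [mem_image] at hw
        obtain ⟨x, hx, hgx⟩ := hw
        have h1 : (if x i = c then none else some (x i)) = some a := congrArg Prod.fst hgx
        split_ifs at h1 with g1
        rw [Option.some_inj] at h1
        subst h1
        exact ⟨g1, mem_vals.2 ⟨x, hx, rfl⟩⟩
      · rintro ⟨h1, h2⟩
        obtain ⟨x, hx, hxa⟩ := mem_vals.1 h2
        refine ⟨dv ev t x, ?_⟩
        rw [mem_image]
        refine ⟨x, hx, ?_⟩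
        simp only [g]
        rw [if_neg (by rw [hxa]; exact h1), hxa]
    have hins : insert c (KK D) = R := by
      rw [hKK, Finset.insert_erase hcR]
    refine ⟨(i, t, D), ?_, ?_⟩
    · refine ⟨hDc, Or.inr ⟨⟨dv ev t z, ?_, ?_⟩, ?_⟩⟩
      · change (none, dv ev t z) ∈ D
        rw [mem_image]
        exact ⟨z, hze.1, by simp only [g]; rw [if_pos hze.2]⟩
      · intro w hw
        change (none, w) ∈ D at hw
        rw [mem_image] at hw
        obtain ⟨x, hx, hgx⟩ := hw
        have h1 : (if x i = c then none else some (x i)) = none := congrArg Prod.fst hgx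
        have h2 : dv ev t x = w := congrArg Prod.snd hgx
        have h3 : x i = c := by
          by_contra h4
          rw [if_neg h4] at h1
          simp at h1
        rw [← h2, hzu x hx h3]
      · change (KK D).card = k - 2
        rw [hKK, Finset.card_erase_of_mem hcR]
        omega
    · have hf : ∀ x ∈ e, fB ev pick i t D x = some (g x) := by
        intro x hx
        unfold fB
        by_cases hxc : x i = c
        · have h1 : x i ∉ KK D := by
            rw [hKK, hxc]
            simp
          rw [if_neg h1, if_pos]
          · simp only [g]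
            rw [if_pos hxc]
          · refine ⟨?_, ?_⟩
            · rw [hxc, hins]
            · intro a ha hsing
              rw [hxc]
              rw [hKK, mem_erase] at ha
              obtain ⟨ha1, ha2⟩ := ha
              have hMa : M a = 1 := by
                apply le_antisymm _ (hM1 a ha2)
                rw [Finset.card_le_one]
                intro y hy y' hy'
                simp only [mem_filter] at hy hy'
                by_contra hne
                have m1 : (some a, dv ev t y) ∈ D := by
                  rw [mem_image]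
                  refine ⟨y, hy.1, ?_⟩
                  simp only [g]
                  rw [if_neg (by rw [hy.2]; exact ha1), hy.2]
                have m2 : (some a, dv ev t y') ∈ D := by
                  rw [mem_image]
                  refine ⟨y', hy'.1, ?_⟩
                  simp only [g]
                  rw [if_neg (by rw [hy'.2]; exact ha1), hy'.2]
                exact hdv y hy.1 y' hy'.1 hne (hy.2.trans hy'.2.symm) (hsing _ _ m1 m2)
              have haR1 : a ∈ R1 := by simp [R1, ha2, hMa]
              exact lt_of_le_of_ne (Finset.le_max' _ _ haR1) ha1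
        · have h1 : x i ∈ KK D := by
            rw [hKK, mem_erase]
            exact ⟨hxc, mem_vals.2 ⟨x, hx, rfl⟩⟩
          rw [if_pos h1]
          simp only [g]
          rw [if_neg hxc]
      constructor
      · change e.image (fB ev pick i t D) = D.image some
        rw [Finset.image_image]
        apply Finset.image_congr
        intro x hx
        exact hf x hx
      · intro x hx y hy hxy
        change fB ev pick i t D x = fB ev pick i t D y at hxy
        rw [hf x hx, hf y hy, Option.some_inj] at hxy
        exact hginj hx hy hxy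
  · -- at most `k - 2` values
    let g : (Fin l → Fin b) → Option (Fin b) × (Fin l → F) := fun x =>
      (some (x i), dv ev t x)
    have hginj : Set.InjOn g e := by
      intro x hx y hy hxy
      by_contra hne
      have h1 : some (x i) = some (y i) := congrArg Prod.fst hxy
      have h2 : dv ev t x = dv ev t y := congrArg Prod.snd hxy
      exact hdv x hx y hy hne (Option.some_inj.1 h1) h2
    let D := e.image g
    have hDc : D.card = k := by
      rw [Finset.card_image_of_injOn hginj, he]
    have hKK : KK D = R := by
      ext a
      rw [mem_KK]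
      constructor
      · rintro ⟨w, hw⟩
        rw [mem_image] at hw
        obtain ⟨x, hx, hgx⟩ := hw
        have h1 : some (x i) = some a := congrArg Prod.fst hgx
        exact mem_vals.2 ⟨x, hx, Option.some_inj.1 h1⟩
      · intro h2
        obtain ⟨x, hx, hxa⟩ := mem_vals.1 h2
        refine ⟨dv ev t x, ?_⟩
        rw [mem_image]
        refine ⟨x, hx, ?_⟩
        simp only [g]
        rw [hxa]
    refine ⟨(i, t, D), ?_, ?_⟩
    · refine ⟨hDc, Or.inl ⟨?_, ?_, ?_⟩⟩
      · intro w hw
        change (none, w) ∈ D at hw
        rw [mem_image] at hw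
        obtain ⟨x, -, hgx⟩ := hw
        have h1 : some (x i) = none := congrArg Prod.fst hgx
        simp at h1
      · change (KK D).card ≤ k - 2
        rw [hKK]; exact hle
      · change t = tv ev pick i (KK D)
        rw [hKK]
    · have hf : ∀ x ∈ e, fB ev pick i t D x = some (g x) := by
        intro x hx
        unfold fB
        have h1 : x i ∈ KK D := by
          rw [hKK]
          exact mem_vals.2 ⟨x, hx, rfl⟩
        rw [if_pos h1]
      constructor
      · change e.image (fB ev pick i t D) = D.image some
        rw [Finset.image_image]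
        apply Finset.image_congr
        intro x hx
        exact hf x hx
      · intro x hx y hy hxy
        change fB ev pick i t D x = fB ev pick i t D y at hxy
        rw [hf x hx, hf y hy, Option.some_inj] at hxy
        exact hginj hx hy hxy

end kexist

end Pool.Agent.R729.KP
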