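import Mathlib
import Pool.Agent.R729.KP.KExist
import Pool.Agent.R729.KP.Digits

namespace Pool.Agent.R729.KP

open Finset

lemma enum_finset {α : Type} [DecidableEq α] (K : Finset α) (n : ℕ) (hK : K.card ≤ n)
    (hne : K.Nonempty) : ∃ g : Fin n → α, univ.image g = K := by
  classical
  obtain ⟨a0, ha0⟩ := hne
  refine ⟨fun t => if h : (t : ℕ) < K.card then (K.equivFin.symm ⟨t, h⟩ : K).1 else a0, ?_⟩
  ext a
  simp only [mem_image, mem_univ, true_and]
  constructor
  · rintro ⟨t, rfl⟩
    split_ifs with h
    · exact (K.equivFin.symm ⟨t, h⟩).2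
    · exact ha0
  · intro ha
    refine ⟨⟨(K.equivFin ⟨a, ha⟩ : Fin K.card), lt_of_lt_of_le (Fin.is_lt _) hK⟩, ?_⟩
    have h2 := (K.equivFin ⟨a, ha⟩).2
    simp [h2]

section kcount

variable {l b k : ℕ} {F : Type} [Fintype F] [DecidableEq F]
variable (ev : F → Fin b → F) (pick : Fin l → Fin l → Finset F → F)

/-- members of the first kind -/
abbrev IA (l b k : ℕ) : Type := {q : LA l b // q.2.card = k - 2}

/-- members of the second kind -/
abbrev IB (k : ℕ) : Type := {q : LB l b F // validB ev pick k q}

lemma IA_card (hk : 3 ≤ k) : Nat.card (IA l b k) ≤ l * b ^ (k - 2) := by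
  classical
  have h1 : ∀ q : IA l b k, ∃ g : Fin (k - 2) → Fin b, univ.image g = q.1.2 := by
    intro q
    apply enum_finset _ _ q.2.le
    rw [← Finset.card_pos, q.2]
    omega
  choose g hg using h1
  have h2 : Nat.card (IA l b k) ≤ Nat.card (Fin l × (Fin (k - 2) → Fin b)) := by
    refine Nat.card_le_card_of_injective (fun q => (q.1.1, g q)) ?_
    intro q q' h
    simp only [Prod.mk.injEq] at h
    obtain ⟨e1, e2⟩ := h
    apply Subtype.ext
    apply Prod.ext e1
    rw [← hg q, ← hg q', e2]
  refine le_trans h2 ?_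
  simp

lemma KK_nonempty (hk : 3 ≤ k) {q : LB l b F} (hv : validB ev pick k q) :
    (KK q.2.2).Nonempty := by
  obtain ⟨hcard, hB | hC⟩ := hv
  · have : q.2.2.Nonempty := by
      rw [← Finset.card_pos]; omega
    obtain ⟨⟨o, w⟩, hd⟩ := this
    cases o with
    | none => exact absurd hd (hB.1 w)
    | some a => exact ⟨a, mem_KK.2 ⟨w, hd⟩⟩
  · rw [← Finset.card_pos]
    have := hC.2
    omega

lemma KK_card {q : LB l b F} (hv : validB ev pick k q) : (KK q.2.2).card ≤ k - 2 := by
  obtain ⟨-, hB | hC⟩ := hv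
  · exact hB.2.1
  · exact hC.2.le

lemma IB_card (hk : 3 ≤ k) : Nat.card (IB ev pick k) ≤
    l * (Fintype.card F ^ l * (b ^ (k - 2) * ((k - 1) * Fintype.card F ^ l) ^ k)) := by
  classical
  have h1 : ∀ q : IB ev pick k, ∃ κ : Fin (k - 2) → Fin b,
      ∃ σ : Fin k → Option (Fin (k - 2)) × (Fin l → F),
        univ.image (fun c => ((σ c).1.map κ, (σ c).2)) = q.1.2.2 := by
    intro q
    obtain ⟨κ, hκ⟩ := enum_finset (KK q.1.2.2) (k - 2) (KK_card ev pick q.2)
      (KK_nonempty ev pick hk q.2)
    refine ⟨κ, ?_⟩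
    have hne : q.1.2.2.Nonempty := by
      rw [← Finset.card_pos, q.2.1]; omega
    obtain ⟨g, hg⟩ := enum_finset q.1.2.2 k q.2.1.le hne
    have h2 : ∀ c, ∃ s : Option (Fin (k - 2)), s.map κ = (g c).1 := by
      intro c
      have hc : g c ∈ q.1.2.2 := by
        rw [← hg]; exact mem_image_of_mem _ (mem_univ _)
      cases ho : (g c).1 with
      | none => exact ⟨none, rfl⟩
      | some a =>
        have : a ∈ KK q.1.2.2 := by
          rw [mem_KK]
          refine ⟨(g c).2, ?_⟩
          rw [← ho]
          exact hc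
        rw [← hκ, mem_image] at this
        obtain ⟨s, -, hs⟩ := this
        exact ⟨some s, by simp [hs]⟩
    choose s hs using h2
    refine ⟨fun c => (s c, (g c).2), ?_⟩
    rw [← hg]
    congr 1
    funext c
    simp only [hs]
  choose κ σ hσ using h1
  have h2 : Nat.card (IB ev pick k) ≤ Nat.card (Fin l × ((Fin l → F) ×
      ((Fin (k - 2) → Fin b) × (Fin k → Option (Fin (k - 2)) × (Fin l → F))))) := by
    refine Nat.card_le_card_of_injective (fun q => (q.1.1, q.1.2.1, κ q, σ q)) ?_
    intro q q' h
    simp only [Prod.mk.injEq] at h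
    obtain ⟨e1, e2, e3, e4⟩ := h
    apply Subtype.ext
    apply Prod.ext e1
    apply Prod.ext e2
    rw [← hσ q, ← hσ q', e3, e4]
  refine le_trans h2 ?_
  rw [Nat.card_eq_fintype_card]
  simp only [Fintype.card_prod, Fintype.card_fin, Fintype.card_fun, Fintype.card_option]
  have : k - 2 + 1 = k - 1 := by omega
  rw [this]

end kcount

/-- the covering of the `k`-sets obtained from the digit construction -/
lemma coveringK {l b k h n : ℕ} (hk : 3 ≤ k) {F : Type} [Fintype F] [DecidableEq F]
    (ev : F → Fin b → F)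
    (hev : ∀ a a' : Fin b, a ≠ a' → (univ.filter fun t => ev t a = ev t a').card ≤ h)
    (pick : Fin l → Fin l → Finset F → F)
    (hpick : ∀ B : Fin l → Finset F, (∀ i, (B i).card ≤ k * (k * h)) →
        ∃ i : Fin l, ∀ j : Fin l, j ≠ i → pick i j (B i) ∉ B j)
    (hn : n ≤ b ^ l) :
    ∃ m : ℕ, m ≤ l * b ^ (k - 2) +
      l * (Fintype.card F ^ l * (b ^ (k - 2) * ((k - 1) * Fintype.card F ^ l) ^ k)) ∧
      ∃ H : Fin m → Fin k → Finset (Fin n), IsCovering k l n m H := by
  classical
  have hcard : Fintype.card (Fin n) ≤ Fintype.card (Fin l → Fin b) := by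
    simpa using hn
  obtain ⟨φ⟩ := Function.Embedding.nonempty_of_card_le hcard
  have hA : ∀ q : IA l b k, ∃ L : (Fin l → Fin b) → Option (Fin k),
      ∀ e, CovK L e ↔ CovD (fA q.1.1 q.1.2) (DA q.1.2) e := by
    intro q
    apply covD_iff
    rw [DA_card, q.2]
    omega
  have hB : ∀ q : IB ev pick k, ∃ L : (Fin l → Fin b) → Option (Fin k),
      ∀ e, CovK L e ↔ CovD (fB ev pick q.1.1 q.1.2.1 q.1.2.2) q.1.2.2 e := by
    intro q
    apply covD_iff
    exact q.2.1
  choose LA' hLA using hA
  choose LB' hLB using hB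
  have : Fintype (IB ev pick k) := Fintype.ofFinite _
  have : Fintype (IA l b k) := Fintype.ofFinite _
  let LL : (IA l b k) ⊕ (IB ev pick k) → (Fin l → Fin b) → Option (Fin k) :=
    Sum.elim LA' LB'
  have key := assembleK (I := (IA l b k) ⊕ (IB ev pick k)) (n := n) (k := k) (l := l)
    (fun I x => LL I (φ x)) ?_
  · obtain ⟨m, hm, H, hH⟩ := key
    refine ⟨m, ?_, H, hH⟩
    rw [Fintype.card_sum, ← Nat.card_eq_fintype_card, ← Nat.card_eq_fintype_card] at hm
    exact le_trans hm (Nat.add_le_add (IA_card hk) (IB_card ev pick hk))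
  · intro e he
    have he' : (e.image φ).card = k := by
      rw [Finset.card_image_of_injective _ φ.injective, he]
    have hvc : ∀ j, (vals j (e.image φ)).card ≤ k := by
      intro j
      rw [← he']
      exact Finset.card_image_le
    constructor
    · obtain ⟨i, hi⟩ := hpick (fun j => BS ev (vals j (e.image φ))) (fun j => by
        refine le_trans (BS_card hev _) ?_
        exact Nat.mul_le_mul (hvc j) (Nat.mul_le_mul_right _ (hvc j)))
      rcases Nat.lt_or_ge (vals i (e.image φ)).card k with hlt | hge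
      · obtain ⟨q, hq1, hq2⟩ := exists_B (ev := ev) (pick := pick) hk he' hi (by omega)
        refine ⟨Sum.inr ⟨q, hq1⟩, ?_⟩
        rw [covK_pull φ φ.injective]
        exact (hLB ⟨q, hq1⟩ _).2 hq2
      · obtain ⟨K, hK1, hK2⟩ := exists_A hk (i := i) he' (le_antisymm (hvc i) hge)
        refine ⟨Sum.inl ⟨(i, K), hK1⟩, ?_⟩
        rw [covK_pull φ φ.injective]
        exact (hLA ⟨(i, K), hK1⟩ _).2 hK2
    · have hle : Nat.card {i : (IA l b k) ⊕ (IB ev pick k) // CovK (fun x => LL i (φ x)) e} ≤
          Nat.card (Fin l) := by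
        refine Nat.card_le_card_of_injective (fun i => match i.1 with
          | Sum.inl q => q.1.1
          | Sum.inr q => q.1.1) ?_
        rintro ⟨I, hI⟩ ⟨I', hI'⟩ hij
        apply Subtype.ext
        rw [covK_pull φ φ.injective] at hI hI'
        rcases I with q | q <;> rcases I' with q' | q' <;> simp only at hij
        · have c1 := (hLA q _).1 hI
          have c2 := (hLA q' _).1 hI'
          have hKne : q.1.2.Nonempty := by
            rw [← Finset.card_pos, q.2]; omega
          have hKne' : q'.1.2.Nonempty := by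
            rw [← Finset.card_pos, q'.2]; omega
          have hqq : q = q' := by
            apply Subtype.ext
            apply Prod.ext hij
            ext a
            rw [A_mem hKne c1 a, A_mem hKne' c2 a, hij]
          change (Sum.inl q : (IA l b k) ⊕ (IB ev pick k)) = Sum.inl q'
          rw [hqq]
        · exfalso
          have c1 := (hLA q _).1 hI
          have c2 := (hLB q' _).1 hI'
          rw [hij] at c1
          exact AB_disj hk q'.2 he' c1 c2
        · exfalso
          have c1 := (hLB q _).1 hI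
          have c2 := (hLA q' _).1 hI'
          rw [← hij] at c2
          exact AB_disj hk q.2 he' c2 c1
        · have c1 := (hLB q _).1 hI
          have c2 := (hLB q' _).1 hI'
          have hqq : q = q' := Subtype.ext (B_inj hk q.2 q'.2 c1 c2 hij)
          change (Sum.inr q : (IA l b k) ⊕ (IB ev pick k)) = Sum.inr q'
          rw [hqq]
      simpa using hle

end Pool.Agent.R729.KP
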