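import Mathlib
import Pool.Agent.R729.KP.KCount

namespace Pool.Agent.R729.KP

open Finset

/-- the upper bound for all `k ≥ 3` and all orders `l`: exponent `(k - 2) / l + ε` -/
theorem upperK (k l : ℕ) (hk : 3 ≤ k) (hl : 1 ≤ l) (ε : ℝ) (hε : 0 < ε) :
    ∃ C : ℝ, 0 < C ∧ ∀ n : ℕ, 1 ≤ n → ∃ m : ℕ,
      (m : ℝ) ≤ C * (n : ℝ) ^ (((k - 2 : ℕ) : ℝ) / l + ε) ∧
      ∃ H : Fin m → Fin k → Finset (Fin n), IsCovering k l n m H := by
  classical
  have hl0 : (0 : ℝ) < l := by exact_mod_cast hl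
  obtain ⟨h0, hh0⟩ := exists_nat_ge (((k : ℝ) + 1) / ε)
  let h : ℕ := max 1 h0
  have hh1 : 1 ≤ h := le_max_left _ _
  have hhR : (0 : ℝ) < h := by exact_mod_cast hh1
  have hh : ((k : ℝ) + 1) / ε ≤ h := le_trans hh0 (by exact_mod_cast le_max_right 1 h0)
  have hexp : ((h * (k - 2 : ℕ) + l * (k + 1) : ℕ) : ℝ) / (h * l) ≤
      ((k - 2 : ℕ) : ℝ) / l + ε := by
    rw [div_le_iff₀ hε] at hh
    rw [div_le_iff₀ (by positivity)]
    have : (((k - 2 : ℕ) : ℝ) / l + ε) * (h * l) = h * ((k - 2 : ℕ) : ℝ) + l * (h * ε) := by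
      field_simp
    rw [this]
    push_cast
    have h2 : (l : ℝ) * (k + 1) ≤ l * (h * ε) := mul_le_mul_of_nonneg_left hh hl0.le
    linarith
  obtain ⟨s0, hs0⟩ := sink l (k * (k * h)) hl
  let Q : ℕ := s0 + 1
  have hQ : 1 ≤ Q := Nat.le_add_left 1 s0
  have hk1 : (1 : ℝ) ≤ ((k - 1 : ℕ) : ℝ) := by
    have : 1 ≤ k - 1 := by omega
    exact_mod_cast this
  refine ⟨2 * l * ((k - 1 : ℕ) : ℝ) ^ k * (4 * Q) ^ (h * (k - 2) + l * (k + 1)),
    by positivity, ?_⟩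
  intro n hn
  have hnR : (1 : ℝ) ≤ n := by exact_mod_cast hn
  let x : ℝ := (n : ℝ) ^ ((1 : ℝ) / (h * l))
  have hx1 : 1 ≤ x := Real.one_le_rpow hnR (by positivity)
  let r : ℕ := ⌈x⌉₊
  have hr1 : 1 ≤ r := Nat.one_le_iff_ne_zero.2 (by
    intro h0
    have := Nat.le_ceil x
    have h0' : (⌈x⌉₊ : ℝ) = 0 := by exact_mod_cast h0
    rw [h0'] at this
    linarith)
  have hrx : (r : ℝ) ≤ 2 * x := by
    have := Nat.ceil_lt_add_one (a := x) (by linarith)
    have h2 : (r : ℝ) < x + 1 := this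
    linarith
  have hnr : n ≤ r ^ (h * l) := by
    have h1 : x ≤ r := Nat.le_ceil x
    have h2 : x ^ (h * l) ≤ (r : ℝ) ^ (h * l) := pow_le_pow_left₀ (by linarith) h1 _
    have h3 : x ^ (h * l) = n := by
      rw [← Real.rpow_natCast, ← Real.rpow_mul (by linarith)]
      have : (1 : ℝ) / (h * l) * ((h * l : ℕ) : ℝ) = 1 := by
        push_cast
        field_simp
      rw [this, Real.rpow_one]
    rw [h3] at h2
    exact_mod_cast h2
  obtain ⟨p, hp, hp1, hp2⟩ := Nat.exists_prime_lt_and_le_two_mul (r * Q) (by positivity)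
  have : Fact p.Prime := ⟨hp⟩
  have hQp : s0 ≤ p := by
    have h1 : Q ≤ r * Q := Nat.le_mul_of_pos_left _ hr1
    have h2 : s0 ≤ Q := Nat.le_succ s0
    omega
  have hrp : r ≤ p := by
    have : r ≤ r * Q := Nat.le_mul_of_pos_right _ hQ
    exact le_trans this hp1.le
  have hnp : n ≤ (p ^ h) ^ l := by
    rw [← pow_mul]
    exact le_trans hnr (Nat.pow_le_pow_left hrp _)
  -- digits
  have hA : Fintype.card (Fin h → ZMod p) = p ^ h := by simp [ZMod.card]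
  let eA : Fin (p ^ h) ≃ (Fin h → ZMod p) := (Fintype.equivFinOfCardEq hA).symm
  let ev : ZMod p → Fin (p ^ h) → ZMod p := fun t a => ∑ k, eA a k * t ^ (k : ℕ)
  obtain ⟨pick, hpick⟩ := hs0 (ZMod p) (by simpa [ZMod.card] using hQp)
  obtain ⟨m, hm, H, hH⟩ := coveringK (l := l) (b := p ^ h) (k := k) (h := h) (n := n) hk ev
    (fun a a' haa => (agree_lt (fun h => haa (eA.injective h))).le) pick hpick hnp
  refine ⟨m, ?_, H, hH⟩
  have hp1' : 1 ≤ p := hp.one_lt.le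
  have hcardF : Fintype.card (ZMod p) = p := ZMod.card p
  rw [hcardF] at hm
  have hm2 : m ≤ 2 * l * (k - 1) ^ k * p ^ (h * (k - 2) + l * (k + 1)) := by
    refine le_trans hm ?_
    have e1 : p ^ l * ((p ^ h) ^ (k - 2) * ((k - 1) * p ^ l) ^ k) =
        (k - 1) ^ k * p ^ (h * (k - 2) + l * (k + 1)) := by
      rw [mul_pow, ← pow_mul, ← pow_mul, pow_add, mul_add, pow_add]
      ring
    rw [e1]
    have e2 : (p ^ h) ^ (k - 2) ≤ (k - 1) ^ k * p ^ (h * (k - 2) + l * (k + 1)) := by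
      rw [← pow_mul]
      have e3 : p ^ (h * (k - 2)) ≤ p ^ (h * (k - 2) + l * (k + 1)) :=
        Nat.pow_le_pow_right hp1' (Nat.le_add_right _ _)
      have e4 : 1 ≤ (k - 1) ^ k := Nat.one_le_pow _ _ (by omega)
      calc _ ≤ p ^ (h * (k - 2) + l * (k + 1)) := e3
        _ = 1 * p ^ (h * (k - 2) + l * (k + 1)) := (one_mul _).symm
        _ ≤ _ := Nat.mul_le_mul_right _ e4
    calc _ ≤ l * ((k - 1) ^ k * p ^ (h * (k - 2) + l * (k + 1))) +
          l * ((k - 1) ^ k * p ^ (h * (k - 2) + l * (k + 1))) :=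
        Nat.add_le_add_right (Nat.mul_le_mul_left _ e2) _
      _ = _ := by ring
  have hpx : (p : ℝ) ≤ 4 * Q * x := by
    have h1 : (p : ℝ) ≤ 2 * (r * Q) := by exact_mod_cast hp2
    have h2 : (r : ℝ) * Q ≤ 2 * x * Q := mul_le_mul_of_nonneg_right hrx (by positivity)
    linarith
  calc (m : ℝ) ≤ 2 * l * ((k - 1 : ℕ) : ℝ) ^ k * (p : ℝ) ^ (h * (k - 2) + l * (k + 1)) := by
        exact_mod_cast hm2
    _ ≤ 2 * l * ((k - 1 : ℕ) : ℝ) ^ k * (4 * Q * x) ^ (h * (k - 2) + l * (k + 1)) := by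
        apply mul_le_mul_of_nonneg_left _ (by positivity)
        exact pow_le_pow_left₀ (by positivity) hpx _
    _ = 2 * l * ((k - 1 : ℕ) : ℝ) ^ k * (4 * Q) ^ (h * (k - 2) + l * (k + 1)) *
          x ^ (h * (k - 2) + l * (k + 1)) := by
        rw [mul_pow]; ring
    _ ≤ 2 * l * ((k - 1 : ℕ) : ℝ) ^ k * (4 * Q) ^ (h * (k - 2) + l * (k + 1)) *
          (n : ℝ) ^ (((k - 2 : ℕ) : ℝ) / l + ε) := by
        apply mul_le_mul_of_nonneg_left _ (by positivity)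
        have : x ^ (h * (k - 2) + l * (k + 1)) =
            (n : ℝ) ^ (((h * (k - 2 : ℕ) + l * (k + 1) : ℕ) : ℝ) / (h * l)) := by
          rw [← Real.rpow_natCast, ← Real.rpow_mul (by linarith)]
          congr 1
          ring
        rw [this]
        exact Real.rpow_le_rpow_of_exponent_le hnR hexp

end Pool.Agent.R729.KP
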