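import Mathlib
import Pool.Agent.R729.KP.Asm

namespace Pool.Agent.R729.KP

open Finset

section lowg

variable {k n m j r : ℕ}

/-- index type of the points of a `k`-set: two groups of `j` points and `r` fixed points -/
abbrev TT (j r : ℕ) : Type := Fin j ⊕ (Fin j ⊕ Fin r)

open Classical in
/-- indicator as a rational number -/
noncomputable def ind (p : Prop) : ℚ := if p then 1 else 0

lemma ind_true {p : Prop} (h : p) : ind p = 1 := by
  classical
  unfold ind; rw [if_pos h]

lemma ind_false {p : Prop} (h : ¬ p) : ind p = 0 := by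
  classical
  unfold ind; rw [if_neg h]

/-- for an injective labelling of the points of a `k`-set the number of bijections to the parts is
one or zero -/
lemma sum_bij {T : Type} [Fintype T] [DecidableEq T] (hT : Fintype.card T = k)
    {X : Fin k → Finset (Fin n)} (hd : ∀ c c', c ≠ c' → Disjoint (X c) (X c'))
    {P : T → Fin n} (hP : Function.Injective P) :
    ∑ τ : T ≃ Fin k, ∏ p, ind (P p ∈ X (τ p)) =
      ind (IsEdge X (univ.image P)) := by
  classical
  by_cases hE : IsEdge X (univ.image P)
  · rw [ind_true hE]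
    obtain ⟨x, hx, he⟩ := hE
    have hxinj : Function.Injective x := by
      intro c c' hcc
      by_contra hne
      have h1 := hx c
      rw [hcc] at h1
      exact absurd (hx c') (Finset.disjoint_left.1 (hd c c' hne) h1)
    have hex : ∀ p, ∃ c, x c = P p := by
      intro p
      have : P p ∈ univ.image P := Finset.mem_image_of_mem _ (mem_univ _)
      rw [he] at this
      simpa using this
    choose f hf using hex
    have hfinj : Function.Injective f := by
      intro p q hpq
      apply hP
      rw [← hf p, ← hf q, hpq]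
    have hfbij : Function.Bijective f :=
      (Fintype.bijective_iff_injective_and_card f).2 ⟨hfinj, by simpa using hT⟩
    rw [Finset.sum_eq_single (Equiv.ofBijective f hfbij)]
    · apply Finset.prod_eq_one
      intro p _
      apply ind_true
      rw [Equiv.ofBijective_apply, ← hf p]
      exact hx _
    · intro τ _ hτ
      obtain ⟨p, hp⟩ : ∃ p, τ p ≠ f p := by
        by_contra hcon
        push Not at hcon
        apply hτ
        ext p
        rw [Equiv.ofBijective_apply, hcon p]
      apply Finset.prod_eq_zero (Finset.mem_univ p)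
      apply ind_false
      intro hmem
      have h2 : P p ∈ X (f p) := by
        rw [← hf p]; exact hx _
      exact absurd h2 (Finset.disjoint_left.1 (hd _ _ hp) hmem)
    · simp
  · rw [ind_false hE]
    apply Finset.sum_eq_zero
    intro τ _
    by_contra hne
    apply hE
    have hall : ∀ p, P p ∈ X (τ p) := by
      intro p
      by_contra hp
      exact hne (Finset.prod_eq_zero (Finset.mem_univ p) (ind_false hp))
    refine ⟨fun c => P (τ.symm c), fun c => ?_, ?_⟩
    · have := hall (τ.symm c)
      rwa [Equiv.apply_symm_apply] at this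
    · ext y
      simp only [mem_image, mem_univ, true_and]
      constructor
      · rintro ⟨p, hp⟩
        exact ⟨τ p, by rw [Equiv.symm_apply_apply, hp]⟩
      · rintro ⟨c, hc⟩
        exact ⟨τ.symm c, hc⟩

/-- if two points of the labelling coincide the sum vanishes -/
lemma sum_bij_zero {T : Type} [Fintype T] [DecidableEq T]
    {X : Fin k → Finset (Fin n)} (hd : ∀ c c', c ≠ c' → Disjoint (X c) (X c'))
    {P : T → Fin n} {p q : T} (hpq : p ≠ q) (hP : P p = P q) :
    ∑ τ : T ≃ Fin k, ∏ p, ind (P p ∈ X (τ p)) = 0 := by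
  classical
  apply Finset.sum_eq_zero
  intro τ _
  by_contra hne
  have hall : ∀ p, P p ∈ X (τ p) := by
    intro p
    by_contra hp
    exact hne (Finset.prod_eq_zero (Finset.mem_univ p) (ind_false hp))
  have h1 := hall p
  have h2 := hall q
  rw [hP] at h1
  exact absurd h2 (Finset.disjoint_left.1 (hd _ _ (fun h => hpq (τ.injective h))) h1)

/-- the matrix `∏ (1 - δ)` is invertible -/
lemma kneser_inv {N : ℕ} (hN : 2 ≤ N) (a c : Fin j → Fin N) :
    ∑ b : Fin j → Fin N, (∏ t, (1 - (if a t = b t then (1 : ℚ) else 0))) *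
      (∏ t, (1 / ((N : ℚ) - 1) - (if b t = c t then (1 : ℚ) else 0))) =
      if a = c then 1 else 0 := by
  classical
  have hN1 : ((N : ℚ) - 1) ≠ 0 := by
    have : (2 : ℚ) ≤ N := by exact_mod_cast hN
    intro h
    linarith
  have h1 : ∀ t, ∑ s : Fin N, (1 - (if a t = s then (1 : ℚ) else 0)) *
      (1 / ((N : ℚ) - 1) - (if s = c t then (1 : ℚ) else 0)) = if a t = c t then 1 else 0 := by
    intro t
    have e1 : ∀ s : Fin N, (1 - (if a t = s then (1 : ℚ) else 0)) *
      (1 / ((N : ℚ) - 1) - (if s = c t then (1 : ℚ) else 0)) =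
        1 / ((N : ℚ) - 1) - (if s = c t then (1 : ℚ) else 0) -
        (if a t = s then (1 / ((N : ℚ) - 1) - (if a t = c t then (1 : ℚ) else 0)) else 0) := by
      intro s
      by_cases h : a t = s
      · subst h
        simp
      · simp [h]
    rw [Finset.sum_congr rfl (fun s _ => e1 s)]
    rw [Finset.sum_sub_distrib, Finset.sum_sub_distrib, Finset.sum_const, Finset.card_univ,
      Fintype.card_fin, Finset.sum_ite_eq', Finset.sum_ite_eq]
    simp only [mem_univ, if_true, nsmul_eq_mul]
    field_simp
    ring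
  simp only [← Finset.prod_mul_distrib]
  have h2 := Finset.prod_univ_sum (fun _ : Fin j => (univ : Finset (Fin N)))
    (fun t s => (1 - (if a t = s then (1 : ℚ) else 0)) *
      (1 / ((N : ℚ) - 1) - (if s = c t then (1 : ℚ) else 0)))
  rw [Fintype.piFinset_univ] at h2
  rw [← h2, Finset.prod_congr rfl (fun t _ => h1 t)]
  by_cases hac : a = c
  · subst hac; simp
  · rw [if_neg hac]
    obtain ⟨t, ht⟩ := Function.ne_iff.1 hac
    exact Finset.prod_eq_zero (mem_univ t) (if_neg ht)

/-- the general lower bound, in terms of `N` -/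
theorem lowerG {l N : ℕ} (hk : j + (j + r) = k) (hN : 2 ≤ N) (hn : j * N + r ≤ n)
    {H : Fin m → Fin k → Finset (Fin n)} (hH : IsCovering k l n m H) :
    N ^ j ≤ (m * k.factorial + 1) ^ l + 1 := by
  classical
  obtain ⟨-, hd, hc⟩ := hH
  have hcardT : Fintype.card (TT j r) = k := by
    simp [TT, hk]
  have hle : Fintype.card ((Fin j × Fin N) ⊕ Fin r) ≤ Fintype.card (Fin n) := by
    simpa using hn
  obtain ⟨φ⟩ := Function.Embedding.nonempty_of_card_le hle
  let P : (Fin j → Fin N) → (Fin j → Fin N) → TT j r → Fin n := fun a b p =>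
    match p with
    | Sum.inl t => φ (Sum.inl (t, a t))
    | Sum.inr (Sum.inl t) => φ (Sum.inl (t, b t))
    | Sum.inr (Sum.inr s) => φ (Sum.inr s)
  let S : Type := Fin l → Option (Fin m × (TT j r ≃ Fin k))
  let u : Option (Fin m × (TT j r ≃ Fin k)) → (Fin j → Fin N) → ℚ := fun o a =>
    match o with
    | none => 1
    | some (i, τ) => ∏ t, ind (φ (Sum.inl (t, a t)) ∈ H i (τ (Sum.inl t)))
  let v : Option (Fin m × (TT j r ≃ Fin k)) → (Fin j → Fin N) → ℚ := fun o b =>
    match o with
    | none => 1
    | some (i, τ) => (∏ t, ind (φ (Sum.inl (t, b t)) ∈ H i (τ (Sum.inr (Sum.inl t))))) *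
        ∏ s, ind (φ (Sum.inr s) ∈ H i (τ (Sum.inr (Sum.inr s))))
  let g : (Fin j → Fin N) → (Fin j → Fin N) → ℚ := fun a b =>
    ∑ i, ∑ τ : TT j r ≃ Fin k, ∏ p, ind (P a b p ∈ H i (τ p))
  have hguv : ∀ a b, g a b = ∑ i, ∑ τ : TT j r ≃ Fin k, u (some (i, τ)) a * v (some (i, τ)) b := by
    intro a b
    apply Finset.sum_congr rfl
    intro i _
    apply Finset.sum_congr rfl
    intro τ _
    rw [Fintype.prod_sum_type, Fintype.prod_sum_type]
  have hPinj : ∀ a b, (∀ t, a t ≠ b t) → Function.Injective (P a b) := by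
    intro a b hab p q hpq
    rcases p with t | t | s <;> rcases q with t' | t' | s' <;>
      simp only [P, EmbeddingLike.apply_eq_iff_eq, Sum.inl.injEq, Sum.inr.injEq, Prod.mk.injEq,
        reduceCtorEq] at hpq ⊢
    · exact hpq.1
    · obtain ⟨h1, h2⟩ := hpq
      subst h1
      exact absurd h2 (hab t)
    · obtain ⟨h1, h2⟩ := hpq
      subst h1
      exact absurd h2.symm (hab t)
    · exact hpq.1
    · exact hpq
  have hg1 : ∀ a b, (∀ t, a t ≠ b t) → ∃ t : Fin l, ((t : ℕ) : ℚ) + 1 - g a b = 0 := by
    intro a b hab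
    have e1 : g a b = (Nat.card {i : Fin m // IsEdge (H i) (univ.image (P a b))} : ℚ) := by
      simp only [g]
      rw [Finset.sum_congr rfl (fun i _ => sum_bij hcardT (hd i) (hPinj a b hab))]
      unfold ind
      rw [Finset.sum_ite, Finset.sum_const_zero, add_zero, Finset.sum_const, nsmul_eq_mul,
        mul_one, Nat.card_eq_fintype_card, Fintype.card_subtype]
    have h3 : (univ.image (P a b)).card = k := by
      rw [Finset.card_image_of_injective _ (hPinj a b hab), Finset.card_univ, hcardT]
    obtain ⟨h4, h5⟩ := hc _ h3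
    refine ⟨⟨Nat.card {i : Fin m // IsEdge (H i) (univ.image (P a b))} - 1, by omega⟩, ?_⟩
    rw [e1]
    simp only
    rw [Nat.cast_sub h4]
    push_cast
    ring
  have hg0 : ∀ a b, (¬ ∀ t, a t ≠ b t) → g a b = 0 := by
    intro a b hab
    push Not at hab
    obtain ⟨t, ht⟩ := hab
    apply Finset.sum_eq_zero
    intro i _
    refine sum_bij_zero (hd i) (p := Sum.inl t) (q := Sum.inr (Sum.inl t)) (by simp) ?_
    simp only [P, ht]
  let kap : Fin l → Option (Fin m × (TT j r ≃ Fin k)) → ℚ := fun t o =>
    match o with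
    | none => (t : ℕ) + 1
    | some _ => -1
  have hlin : ∀ a b (t : Fin l),
      ((t : ℕ) : ℚ) + 1 - g a b = ∑ o, kap t o * u o a * v o b := by
    intro a b t
    rw [Fintype.sum_option, Fintype.sum_prod_type, hguv]
    have e1 : ∀ i : Fin m, ∀ τ : TT j r ≃ Fin k,
        kap t (some (i, τ)) * u (some (i, τ)) a * v (some (i, τ)) b =
          -(u (some (i, τ)) a * v (some (i, τ)) b) := by
      intro i τ
      simp only [kap]
      ring
    rw [Finset.sum_congr rfl (fun i _ => Finset.sum_congr rfl (fun τ _ => e1 i τ))]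
    simp only [Finset.sum_neg_distrib]
    have e2 : kap t none * u none a * v none b = (t : ℕ) + 1 := by
      simp [kap, u, v]
    rw [e2]
    ring
  let L : ℚ := ∏ t : Fin l, (((t : ℕ) : ℚ) + 1)
  have hL : L ≠ 0 := by
    rw [Finset.prod_ne_zero_iff]
    intro t _
    positivity
  let A : Matrix (Fin j → Fin N) (Option S) ℚ := Matrix.of fun a o =>
    match o with
    | none => 1
    | some s => - L⁻¹ * ∏ t, (kap t (s t) * u (s t) a)
  let B : Matrix (Option S) (Fin j → Fin N) ℚ := Matrix.of fun o b =>
    match o with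
    | none => 1
    | some s => ∏ t, v (s t) b
  let K : Matrix (Fin j → Fin N) (Fin j → Fin N) ℚ := Matrix.of fun a b =>
    ∏ t, (1 - (if a t = b t then (1 : ℚ) else 0))
  let K' : Matrix (Fin j → Fin N) (Fin j → Fin N) ℚ := Matrix.of fun b c =>
    ∏ t, (1 / ((N : ℚ) - 1) - (if b t = c t then (1 : ℚ) else 0))
  have hKK : K * K' = 1 := by
    ext a c
    rw [Matrix.mul_apply]
    simp only [K, K', Matrix.of_apply]
    rw [kneser_inv hN a c, Matrix.one_apply]
  have hAB : A * B = K := by
    ext a b
    rw [Matrix.mul_apply, Fintype.sum_option]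
    have e0 : A a none * B none b = 1 := by simp [A, B]
    have e1 : ∀ s : S, A a (some s) * B (some s) b =
        - L⁻¹ * ∏ t, (kap t (s t) * u (s t) a * v (s t) b) := by
      intro s
      simp only [A, B, Matrix.of_apply]
      rw [mul_assoc, ← Finset.prod_mul_distrib]
    rw [e0, Finset.sum_congr rfl (fun s _ => e1 s), ← Finset.mul_sum]
    have e2 : ∑ s : S, ∏ t, (kap t (s t) * u (s t) a * v (s t) b) =
        ∏ t : Fin l, (((t : ℕ) : ℚ) + 1 - g a b) := by
      simp only [hlin]
      rw [Finset.prod_univ_sum, Fintype.piFinset_univ]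
    rw [e2]
    simp only [K, Matrix.of_apply]
    by_cases hab : ∀ t, a t ≠ b t
    · obtain ⟨t, ht⟩ := hg1 a b hab
      rw [Finset.prod_eq_zero (Finset.mem_univ t) ht, mul_zero, add_zero]
      symm
      apply Finset.prod_eq_one
      intro t _
      rw [if_neg (hab t), sub_zero]
    · rw [hg0 a b hab]
      simp only [sub_zero]
      have e3 : - L⁻¹ * ∏ t : Fin l, (((t : ℕ) : ℚ) + 1) = -1 := by
        change - L⁻¹ * L = -1
        rw [neg_mul, inv_mul_cancel₀ hL]
      rw [e3]
      push Not at hab
      obtain ⟨t, ht⟩ := hab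
      rw [Finset.prod_eq_zero (Finset.mem_univ t)]
      · norm_num
      · rw [if_pos ht, sub_self]
  have hrank : Fintype.card (Fin j → Fin N) ≤ Fintype.card (Option S) := by
    have h1 : (1 : Matrix (Fin j → Fin N) (Fin j → Fin N) ℚ).rank =
        Fintype.card (Fin j → Fin N) := Matrix.rank_one
    rw [← h1, ← hKK, ← hAB, Matrix.mul_assoc]
    refine le_trans (Matrix.rank_mul_le_left _ _) ?_
    exact Matrix.rank_le_card_width _
  have hα : Fintype.card (Fin j → Fin N) = N ^ j := by simp
  have hequiv : Fintype.card (TT j r ≃ Fin k) = k.factorial := by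
    have e : TT j r ≃ Fin k := Fintype.equivFinOfCardEq hcardT
    rw [Fintype.card_equiv e, hcardT]
  have hS : Fintype.card (Option S) = (m * k.factorial + 1) ^ l + 1 := by
    rw [Fintype.card_option]
    simp only [S, Fintype.card_fun, Fintype.card_option, Fintype.card_prod, Fintype.card_fin,
      hequiv]
  rwa [hα, hS] at hrank

end lowg

end Pool.Agent.R729.KP
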