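import Mathlib
import Pool.Agent.R729.KP.LowG

namespace Pool.Agent.R729.KP

open Finset

lemma covering_pos {k l n m : ℕ} (hkn : k ≤ n) {H : Fin m → Fin k → Finset (Fin n)}
    (hH : IsCovering k l n m H) : 1 ≤ m := by
  obtain ⟨-, -, hc⟩ := hH
  obtain ⟨e, -, he⟩ := Finset.exists_subset_card_eq
    (show k ≤ (univ : Finset (Fin n)).card by simpa using hkn)
  obtain ⟨h1, -⟩ := hc e he
  by_contra h0
  have h0' : m = 0 := by omega
  subst h0'
  simp at h1

/-- the lower half of the conjecture, all `k` and `l` -/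
theorem lower_all (k l : ℕ) (hk : 2 ≤ k) (hl : 1 ≤ l) :
    ∃ c : ℝ, 0 < c ∧ ∀ n : ℕ, k ≤ n → ∀ (m : ℕ) (H : Fin m → Fin k → Finset (Fin n)),
      IsCovering k l n m H → c * (n : ℝ) ^ (((k / 2 : ℕ) : ℝ) / l) ≤ m := by
  obtain ⟨j, hj⟩ : ∃ j, j = k / 2 := ⟨_, rfl⟩
  obtain ⟨r, hr⟩ : ∃ r, r = k % 2 := ⟨_, rfl⟩
  have hj1 : 1 ≤ j := by omega
  have hjr : j + (j + r) = k := by omega
  have hr1 : r ≤ 1 := by omega
  rw [← hj]
  refine ⟨1 / (4 * (2 * j) ^ j * k.factorial), by positivity, ?_⟩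
  intro n hn m H hH
  have hm1 := covering_pos hn hH
  obtain ⟨N, hN⟩ : ∃ N, N = (n - r) / j := ⟨_, rfl⟩
  have hN2 : 2 ≤ N := by
    rw [hN, Nat.le_div_iff_mul_le (by omega)]
    omega
  have hjN : j * N + r ≤ n := by
    have := Nat.div_mul_le_self (n - r) j
    rw [← hN] at this
    rw [mul_comm] at this
    omega
  have hnN : n ≤ 2 * j * N := by
    have h1 := Nat.div_add_mod (n - r) j
    rw [← hN] at h1
    have h2 := Nat.mod_lt (n - r) (show 0 < j by omega)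
    have h3 : 2 * j ≤ N * j := Nat.mul_le_mul_right _ hN2
    have h4 : n ≤ j * N + N * j := by omega
    calc n ≤ j * N + N * j := h4
      _ = 2 * j * N := by ring
  have h1 := lowerG hjr hN2 hjN hH
  have h2 : N ^ j ≤ 2 * (2 * (k.factorial * m)) ^ l := by
    have h3 : 1 ≤ m * k.factorial := Nat.mul_pos hm1 (Nat.factorial_pos k)
    have h4 : 1 ≤ (m * k.factorial + 1) ^ l := Nat.one_le_pow _ _ (by omega)
    have h5 : (m * k.factorial + 1) ^ l ≤ (2 * (k.factorial * m)) ^ l := by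
      apply Nat.pow_le_pow_left
      rw [mul_comm m] at h3 ⊢
      omega
    omega
  have h6 : (n : ℝ) ^ j ≤ (2 * (2 * j) ^ j) * (2 * (k.factorial * m)) ^ l := by
    have h7 : (n : ℝ) ≤ 2 * j * N := by exact_mod_cast hnN
    have h8 : (N : ℝ) ^ j ≤ 2 * (2 * (k.factorial * m)) ^ l := by exact_mod_cast h2
    calc (n : ℝ) ^ j ≤ (2 * j * N) ^ j := pow_le_pow_left₀ (by positivity) h7 _
      _ = (2 * j) ^ j * (N : ℝ) ^ j := by rw [mul_pow]
      _ ≤ (2 * j) ^ j * (2 * (2 * (k.factorial * m)) ^ l) := by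
          apply mul_le_mul_of_nonneg_left h8 (by positivity)
      _ = _ := by ring
  have hl0 : (0 : ℝ) < l := by exact_mod_cast hl
  have h9 := Real.rpow_le_rpow (by positivity) h6 (z := (1 : ℝ) / l) (by positivity)
  rw [Real.mul_rpow (by positivity) (by positivity)] at h9
  have e1 : ((n : ℝ) ^ j) ^ ((1 : ℝ) / l) = (n : ℝ) ^ ((j : ℝ) / l) := by
    rw [← Real.rpow_natCast, ← Real.rpow_mul (by positivity)]
    congr 1
    ring
  have e2 : ((2 * ((k.factorial : ℝ) * m)) ^ l) ^ ((1 : ℝ) / l) = 2 * (k.factorial * m) := by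
    rw [← Real.rpow_natCast, ← Real.rpow_mul (by positivity), mul_one_div_cancel hl0.ne',
      Real.rpow_one]
  rw [e1, e2] at h9
  have h10 : (2 * (2 * (j : ℝ)) ^ j) ^ ((1 : ℝ) / l) ≤ 2 * (2 * (j : ℝ)) ^ j := by
    have hge : (1 : ℝ) ≤ 2 * (2 * (j : ℝ)) ^ j := by
      have : (1 : ℝ) ≤ (2 * (j : ℝ)) ^ j := by
        apply one_le_pow₀
        have : (1 : ℝ) ≤ j := by exact_mod_cast hj1
        linarith
      linarith
    calc _ ≤ (2 * (2 * (j : ℝ)) ^ j) ^ (1 : ℝ) := by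
          apply Real.rpow_le_rpow_of_exponent_le hge
          rw [div_le_one hl0]
          exact_mod_cast hl
      _ = _ := Real.rpow_one _
  have h11 : (n : ℝ) ^ ((j : ℝ) / l) ≤ 4 * (2 * j) ^ j * k.factorial * m := by
    calc _ ≤ _ := h9
      _ ≤ (2 * (2 * (j : ℝ)) ^ j) * (2 * (k.factorial * m)) :=
          mul_le_mul_of_nonneg_right h10 (by positivity)
      _ = _ := by ring
  rw [div_mul_eq_mul_div, one_mul, div_le_iff₀ (by positivity)]
  calc _ ≤ _ := h11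
    _ = _ := by ring

end Pool.Agent.R729.KP
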