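import Mathlib
import Pool.Agent.R729.KP.KUpper
import Pool.Agent.R729.KP.LowA
import Pool.Agent.R729.KP.Final3

namespace Pool.Agent.R729.KP

open Finset

theorem minCov_spec (k l : ℕ) (hk : 3 ≤ k) (hl : 1 ≤ l) (n : ℕ) (hn : 1 ≤ n) :
    ∃ H : Fin (minCov k l n) → Fin k → Finset (Fin n), IsCovering k l n (minCov k l n) H := by
  obtain ⟨C, -, hC⟩ := upperK k l hk hl 1 one_pos
  obtain ⟨m, -, H, hH⟩ := hC n hn
  exact Nat.sInf_mem (s := {m | ∃ H : Fin m → Fin k → Finset (Fin n), IsCovering k l n m H})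
    ⟨m, H, hH⟩

theorem minCov_upper (k l : ℕ) (hk : 3 ≤ k) (hl : 1 ≤ l) (ε : ℝ) (hε : 0 < ε) :
    ∃ C : ℝ, 0 < C ∧ ∀ n : ℕ, 1 ≤ n →
      (minCov k l n : ℝ) ≤ C * (n : ℝ) ^ (((k - 2 : ℕ) : ℝ) / l + ε) := by
  obtain ⟨C, hC0, hC⟩ := upperK k l hk hl ε hε
  refine ⟨C, hC0, fun n hn => ?_⟩
  obtain ⟨m, hm, H, hH⟩ := hC n hn
  refine le_trans ?_ hm
  have h9 : minCov k l n ≤ m := Nat.sInf_le ⟨H, hH⟩
  exact_mod_cast h9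

/-- The upper bound for all `k ≥ 3`, and the exponent for `k = 3, 4`. -/
theorem minCov_main :
    (∀ k l : ℕ, 3 ≤ k → 1 ≤ l →
      (∀ n : ℕ, 1 ≤ n → ∃ H : Fin (minCov k l n) → Fin k → Finset (Fin n),
        IsCovering k l n (minCov k l n) H) ∧
      ∀ ε : ℝ, 0 < ε → ∃ C : ℝ, 0 < C ∧ ∀ n : ℕ, 1 ≤ n →
        (minCov k l n : ℝ) ≤ C * (n : ℝ) ^ (((k - 2 : ℕ) : ℝ) / l + ε)) ∧
    (∀ k l : ℕ, k = 3 ∨ k = 4 → 1 ≤ l →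
      (∃ c : ℝ, 0 < c ∧ ∀ n : ℕ, k ≤ n →
        c * (n : ℝ) ^ (((k / 2 : ℕ) : ℝ) / l) ≤ minCov k l n) ∧
      ∀ ε : ℝ, 0 < ε → ∃ C : ℝ, 0 < C ∧ ∀ n : ℕ, 1 ≤ n →
        (minCov k l n : ℝ) ≤ C * (n : ℝ) ^ (((k / 2 : ℕ) : ℝ) / l + ε)) := by
  refine ⟨fun k l hk hl => ⟨minCov_spec k l hk hl, minCov_upper k l hk hl⟩, ?_⟩
  intro k l hk hl
  have hk3 : 3 ≤ k := by omega
  have hkk : k - 2 = k / 2 := by omega
  constructor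
  · obtain ⟨c, hc0, hc⟩ := lower_all k l (by omega) hl
    refine ⟨c, hc0, fun n hn => ?_⟩
    obtain ⟨H, hH⟩ := minCov_spec k l hk3 hl n (by omega)
    exact hc n hn _ H hH
  · intro ε hε
    have := minCov_upper k l hk3 hl ε hε
    rwa [hkk] at this

end Pool.Agent.R729.KP
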